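import Pool.Agent.Helper8.EI.FData

set_option autoImplicit false

/-!
# The criterion for `π` and the odd zeta values
-/

open MvPolynomial NumberField Real

namespace Pool.Agent.Helper8.EI

/-- `ζ(2j) / π^(2j)` -/
def rh (j : ℕ) : ℚ := (-1) ^ (j + 1) * 2 ^ (2 * j - 1) * bernoulli (2 * j) / (2 * j).factorial

theorem ZZ_even {j : ℕ} (hj : 1 ≤ j) : ZZ (2 * j) = (rh j : ℂ) * (π : ℂ) ^ (2 * j) := by
  rw [ZZ_zeta (by omega)]
  have h := riemannZeta_two_mul_nat (k := j) (by omega)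
  push_cast at h ⊢
  rw [h, rh]
  push_cast
  ring

/-- the numerator of the right side of Ramanujan's relation divided by a power of `π` -/
def NN (u : ℤ) (v : ℕ → ℤ) (r : ℕ) (a b : ℤ) : ℤ :=
  u * (b ^ (2 * r + 2) - (-1) ^ r * a ^ (2 * r + 2)) +
    ∑ j ∈ Finset.range r, (-1) ^ j * v j * a ^ (2 * j + 2) * b ^ (2 * (r - j))

theorem exists_uv (r : ℕ) : ∃ (M u : ℤ) (v : ℕ → ℤ), M ≠ 0 ∧ (u : ℚ) = M * (rh (r + 1) / 2) ∧
    ∀ j ∈ Finset.range r, (v j : ℚ) = M * (rh (r - j) * rh (j + 1)) := by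
  classical
  obtain ⟨N, hN⟩ := IsLocalization.exist_integer_multiples_of_finset (nonZeroDivisors ℤ)
    (insert (rh (r + 1) / 2) ((Finset.range r).image fun j => rh (r - j) * rh (j + 1)))
  have hN0 : (N : ℤ) ≠ 0 := nonZeroDivisors.ne_zero N.2
  have key : ∀ x ∈ insert (rh (r + 1) / 2) ((Finset.range r).image fun j => rh (r - j) * rh (j + 1)),
      ∃ z : ℤ, (z : ℚ) = (N : ℤ) * x := by
    intro x hx
    obtain ⟨z, hz⟩ := hN x hx
    refine ⟨z, ?_⟩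
    rw [← eq_intCast (algebraMap ℤ ℚ) z, hz, zsmul_eq_mul]
  obtain ⟨u, hu⟩ := key _ (Finset.mem_insert_self _ _)
  have hv : ∀ j, ∃ z : ℤ, j ∈ Finset.range r → (z : ℚ) = (N : ℤ) * (rh (r - j) * rh (j + 1)) := by
    intro j
    by_cases hj : j ∈ Finset.range r
    · obtain ⟨z, hz⟩ := key _ (Finset.mem_insert_of_mem (Finset.mem_image_of_mem _ hj))
      exact ⟨z, fun _ => hz⟩
    · exact ⟨0, fun h => absurd h hj⟩
  choose v hv using hv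
  exact ⟨N, u, v, hN0, hu, fun j hj => hv j hj⟩

theorem rho_rat {r : ℕ} {M u : ℤ} {v : ℕ → ℤ} (hu : (u : ℚ) = M * (rh (r + 1) / 2))
    (hv : ∀ j ∈ Finset.range r, (v j : ℚ) = M * (rh (r - j) * rh (j + 1))) {a b : ℤ} (ha : a ≠ 0) (hb : b ≠ 0) :
    (M : ℂ) * a * b ^ (2 * r + 1) * rho r ((a : ℂ) / b) = π ^ (2 * r + 1) * NN u v r a b := by
  have hpi : (π : ℂ) ≠ 0 := by exact_mod_cast Real.pi_ne_zero
  have ha' : (a : ℂ) ≠ 0 := by exact_mod_cast ha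
  have hb' : (b : ℂ) ≠ 0 := by exact_mod_cast hb
  have hu' : (u : ℂ) = M * (rh (r + 1) / 2) := by exact_mod_cast congrArg (fun x : ℚ => (x : ℂ)) hu
  have hv' : ∀ j ∈ Finset.range r, (v j : ℂ) = M * (rh (r - j) * rh (j + 1)) := by
    intro j hj
    exact_mod_cast congrArg (fun x : ℚ => (x : ℂ)) (hv j hj)
  simp only [rho, NN]
  have e1 : ZZ (2 * r + 2) = (rh (r + 1) : ℂ) * (π : ℂ) ^ (2 * r + 2) := by
    have := ZZ_even (j := r + 1) (by omega)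
    rw [show 2 * (r + 1) = 2 * r + 2 by ring] at this
    exact this
  have e2 : ∑ j ∈ Finset.range r, (-1) ^ j * ((a : ℂ) / b) ^ (2 * j + 1) * (ZZ (2 * (r - j)) * ZZ (2 * (j + 1))) =
      π ^ (2 * r + 2) * ∑ j ∈ Finset.range r, (-1) ^ j * ((a : ℂ) / b) ^ (2 * j + 1) * (rh (r - j) * rh (j + 1)) := by
    rw [Finset.mul_sum]
    refine Finset.sum_congr rfl fun j hj => ?_
    have hj' := Finset.mem_range.1 hj
    rw [ZZ_even (by omega), ZZ_even (by omega)]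
    have : (π : ℂ) ^ (2 * r + 2) = π ^ (2 * (r - j)) * π ^ (2 * (j + 1)) := by
      rw [← pow_add]
      congr 1
      omega
    rw [this]
    ring
  rw [e1, e2]
  push_cast
  have e3 : (M : ℂ) * a * b ^ (2 * r + 1) *
      ∑ j ∈ Finset.range r, (-1) ^ j * ((a : ℂ) / b) ^ (2 * j + 1) * (rh (r - j) * rh (j + 1)) =
      ∑ j ∈ Finset.range r, (-1) ^ j * (v j : ℂ) * a ^ (2 * j + 2) * b ^ (2 * (r - j)) := by
    rw [Finset.mul_sum]
    refine Finset.sum_congr rfl fun j hj => ?_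
    have hj' := Finset.mem_range.1 hj
    rw [hv' j hj]
    have : (b : ℂ) ^ (2 * r + 1) = b ^ (2 * (r - j)) * b ^ (2 * j + 1) := by
      rw [← pow_add]
      congr 1
      omega
    rw [this, div_pow]
    field_simp
    ring
  have e4 : (b : ℂ) ^ (2 * r + 1) * ((a : ℂ) / b) ^ (2 * r + 1) = a ^ (2 * r + 1) := by
    rw [← mul_pow, mul_div_cancel₀ _ hb']
  have e5 : (a : ℂ) * (1 / ((a : ℂ) / b)) = b := by
    field_simp
  have e6 : (π : ℂ) ^ (2 * r + 2) = π ^ (2 * r + 1) * π := pow_succ _ _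
  have e7 : (a : ℂ) ^ (2 * r + 2) = a ^ (2 * r + 1) * a := pow_succ _ _
  have e8 : (b : ℂ) ^ (2 * r + 2) = b ^ (2 * r + 1) * b := pow_succ _ _
  rw [← e3, hu', e6, e7, e8]
  have e9 : (rh (r + 1) : ℂ) * (π ^ (2 * r + 1) * π) / (2 * π) = rh (r + 1) / 2 * π ^ (2 * r + 1) := by
    field_simp
  rw [e9]
  generalize (∑ j ∈ Finset.range r, (-1) ^ j * ((a : ℂ) / b) ^ (2 * j + 1) * (rh (r - j) * rh (j + 1))) = SS1
  have e10 : 1 / (π : ℂ) * (π ^ (2 * r + 1) * π * SS1) = π ^ (2 * r + 1) * SS1 := by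
    field_simp
  rw [e10]
  linear_combination (M * b ^ (2 * r + 1) * (rh (r + 1) / 2) * π ^ (2 * r + 1)) * e5 -
    (M * a * (rh (r + 1) / 2) * π ^ (2 * r + 1) * (-1) ^ r) * e4

theorem NN_bound {u : ℤ} {v : ℕ → ℤ} {r : ℕ} {a b : ℤ} {H : ℝ} (hH : 1 ≤ H) (ha : |(a : ℝ)| ≤ H) (hb : |(b : ℝ)| ≤ H) :
    |((NN u v r a b : ℤ) : ℝ)| ≤ (2 * |(u : ℝ)| + ∑ j ∈ Finset.range r, |(v j : ℝ)|) * H ^ (2 * r + 2) := by
  have hH0 : 0 ≤ H := by linarith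
  rw [NN]
  push_cast
  refine (abs_add_le _ _).trans ?_
  rw [add_mul]
  refine add_le_add ?_ ?_
  · rw [abs_mul]
    have h1 : |(b : ℝ) ^ (2 * r + 2) - (-1) ^ r * (a : ℝ) ^ (2 * r + 2)| ≤ 2 * H ^ (2 * r + 2) := by
      refine (abs_sub _ _).trans ?_
      rw [abs_mul, abs_pow, abs_pow, abs_pow, abs_neg, abs_one, one_pow, one_mul]
      have h2 := pow_le_pow_left₀ (abs_nonneg _) ha (2 * r + 2)
      have h3 := pow_le_pow_left₀ (abs_nonneg _) hb (2 * r + 2)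
      linarith
    calc |(u : ℝ)| * |(b : ℝ) ^ (2 * r + 2) - (-1) ^ r * (a : ℝ) ^ (2 * r + 2)| ≤ |(u : ℝ)| * (2 * H ^ (2 * r + 2)) :=
          mul_le_mul_of_nonneg_left h1 (abs_nonneg _)
      _ = 2 * |(u : ℝ)| * H ^ (2 * r + 2) := by ring
  · rw [Finset.sum_mul]
    refine (Finset.abs_sum_le_sum_abs _ _).trans (Finset.sum_le_sum fun j hj => ?_)
    have hj' := Finset.mem_range.1 hj
    rw [abs_mul, abs_mul, abs_mul, abs_pow, abs_pow, abs_pow, abs_neg, abs_one, one_pow, one_mul, mul_assoc]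
    refine mul_le_mul_of_nonneg_left ?_ (abs_nonneg _)
    calc |(a : ℝ)| ^ (2 * j + 2) * |(b : ℝ)| ^ (2 * (r - j)) ≤ H ^ (2 * j + 2) * H ^ (2 * (r - j)) :=
          mul_le_mul (pow_le_pow_left₀ (abs_nonneg _) ha _) (pow_le_pow_left₀ (abs_nonneg _) hb _)
            (pow_nonneg (abs_nonneg _) _) (pow_nonneg hH0 _)
      _ = H ^ (2 * r + 2) := by
          rw [← pow_add]
          congr 1
          omega

theorem SS_data {r : ℕ} (hr : 1 ≤ r) : ∃ C : ℝ, 0 ≤ C ∧ ∀ {h : Type} (c : h → ℂ) (j₀ : h), c j₀ = (π : ℂ) →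
    ∀ q : ℚ, 0 < q → q ≠ 1 → ∃ (a b e : ℤ) (l : MvPolynomial h ℤ), e ≠ 0 ∧ b ≠ 0 ∧
      |(a : ℝ)| ≤ C * (hq q : ℝ) ^ (2 * r + 2) ∧ |(b : ℝ)| ≤ C * (hq q : ℝ) ^ (2 * r + 2) ∧
      |(e : ℝ)| ≤ C * (hq q : ℝ) ^ (2 * r + 2) ∧ L1 l ≤ C * (hq q : ℝ) ^ (2 * r + 2) ∧ l.totalDegree ≤ 2 * r + 1 ∧
      (e : ℂ) * SS (2 * r + 1) (1 / (q : ℂ)) = a * SS (2 * r + 1) (q : ℂ) + b * ZZ (2 * r + 1) + aeval c l := by
  obtain ⟨M, u, v, hM0, hu, hv⟩ := exists_uv r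
  set C₀ : ℝ := 2 * |(u : ℝ)| + ∑ j ∈ Finset.range r, |(v j : ℝ)| with hC₀
  have hC₀0 : 0 ≤ C₀ := by positivity
  refine ⟨2 * |(M : ℝ)| + 2 * C₀, by positivity, fun {h} c j₀ hc q hq0 hq1 => ?_⟩
  have hnum : 0 < q.num := Rat.num_pos.2 hq0
  have hden : 0 < q.den := q.den_pos
  have hH1 := hq_num q
  have hH2 := hq_den q
  have hH : (1 : ℝ) ≤ hq q := by exact_mod_cast hq_pos q
  have hH0 : (0 : ℝ) ≤ hq q := by linarith
  set a : ℤ := q.num with ha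
  set b : ℤ := (q.den : ℤ) with hb
  have ha0 : 0 < a := hnum
  have hb0 : 0 < b := by
    rw [hb]
    exact_mod_cast hden
  have haH : |(a : ℝ)| ≤ hq q := hH1
  have hbH : |(b : ℝ)| ≤ hq q := by
    rw [hb]
    push_cast
    rw [abs_of_nonneg (Nat.cast_nonneg _)]
    exact hH2
  have hne : a ≠ b := by
    intro hab
    apply hq1
    rw [← Rat.num_div_den q, ← ha, hab, hb]
    push_cast
    exact div_self (by exact_mod_cast hden.ne')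
  set n := NN u v r a b with hn
  have hnb : |((n : ℤ) : ℝ)| ≤ C₀ * (hq q : ℝ) ^ (2 * r + 2) := NN_bound hH haH hbH
  have hHp : (0 : ℝ) ≤ (hq q : ℝ) ^ (2 * r + 2) := pow_nonneg hH0 _
  have hab1 : |(a : ℝ)| * |(b : ℝ)| ^ (2 * r + 1) ≤ (hq q : ℝ) ^ (2 * r + 2) := by
    calc |(a : ℝ)| * |(b : ℝ)| ^ (2 * r + 1) ≤ (hq q : ℝ) * (hq q : ℝ) ^ (2 * r + 1) :=
          mul_le_mul haH (pow_le_pow_left₀ (abs_nonneg _) hbH _) (pow_nonneg (abs_nonneg _) _) hH0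
      _ = (hq q : ℝ) ^ (2 * r + 2) := by ring
  have hab2 : |(a : ℝ)| ^ (2 * r + 1) * |(b : ℝ)| ≤ (hq q : ℝ) ^ (2 * r + 2) := by
    calc |(a : ℝ)| ^ (2 * r + 1) * |(b : ℝ)| ≤ (hq q : ℝ) ^ (2 * r + 1) * (hq q : ℝ) :=
          mul_le_mul (pow_le_pow_left₀ (abs_nonneg _) haH _) hbH (abs_nonneg _) (pow_nonneg hH0 _)
      _ = (hq q : ℝ) ^ (2 * r + 2) := by ring
  have hsgn : |((-1 : ℝ)) ^ r| = 1 := by
    rw [abs_pow, abs_neg, abs_one, one_pow]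
  refine ⟨2 * M * a * b ^ (2 * r + 1), M * (a * b ^ (2 * r + 1) - (-1) ^ r * (a ^ (2 * r + 1) * b)),
    (-1) ^ r * (2 * M * a ^ (2 * r + 1) * b), C (-2 * n) * X j₀ ^ (2 * r + 1), ?_, ?_, ?_, ?_, ?_, ?_, ?_, ?_⟩
  · exact mul_ne_zero (pow_ne_zero _ (by norm_num)) (mul_ne_zero (mul_ne_zero (mul_ne_zero two_ne_zero hM0)
      (pow_ne_zero _ ha0.ne')) hb0.ne')
  · refine mul_ne_zero hM0 fun h0 => ?_
    have h1 : a * b * (b ^ (2 * r) - (-1) ^ r * a ^ (2 * r)) = 0 := by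
      rw [← h0]
      ring
    have h2 : b ^ (2 * r) = (-1) ^ r * a ^ (2 * r) := by
      rcases mul_eq_zero.1 h1 with h | h
      · exact absurd h (mul_ne_zero ha0.ne' hb0.ne')
      · exact sub_eq_zero.1 h
    rcases neg_one_pow_eq_or ℤ r with h | h
    · rw [h, one_mul] at h2
      have h3 := (pow_left_inj₀ hb0.le ha0.le (by omega : 2 * r ≠ 0)).1 h2
      exact hne h3.symm
    · rw [h] at h2
      have h3 : 0 < b ^ (2 * r) := pow_pos hb0 _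
      have h4 : 0 < a ^ (2 * r) := pow_pos ha0 _
      linarith
  · push_cast
    rw [abs_mul, abs_mul, abs_mul, abs_two, abs_pow, mul_assoc]
    calc 2 * |(M : ℝ)| * (|(a : ℝ)| * |(b : ℝ)| ^ (2 * r + 1)) ≤ 2 * |(M : ℝ)| * (hq q : ℝ) ^ (2 * r + 2) :=
          mul_le_mul_of_nonneg_left hab1 (by positivity)
      _ ≤ (2 * |(M : ℝ)| + 2 * C₀) * (hq q : ℝ) ^ (2 * r + 2) := mul_le_mul_of_nonneg_right (by linarith) hHp
  · push_cast
    rw [abs_mul]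
    have h1 : |(a : ℝ) * (b : ℝ) ^ (2 * r + 1) - (-1) ^ r * ((a : ℝ) ^ (2 * r + 1) * (b : ℝ))| ≤
        2 * (hq q : ℝ) ^ (2 * r + 2) := by
      refine (abs_sub _ _).trans ?_
      rw [abs_mul, abs_mul, abs_mul, hsgn, one_mul, abs_pow, abs_pow]
      linarith
    calc |(M : ℝ)| * |(a : ℝ) * (b : ℝ) ^ (2 * r + 1) - (-1) ^ r * ((a : ℝ) ^ (2 * r + 1) * (b : ℝ))| ≤
          |(M : ℝ)| * (2 * (hq q : ℝ) ^ (2 * r + 2)) := mul_le_mul_of_nonneg_left h1 (abs_nonneg _)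
      _ = 2 * |(M : ℝ)| * (hq q : ℝ) ^ (2 * r + 2) := by ring
      _ ≤ (2 * |(M : ℝ)| + 2 * C₀) * (hq q : ℝ) ^ (2 * r + 2) := mul_le_mul_of_nonneg_right (by linarith) hHp
  · push_cast
    rw [abs_mul, hsgn, one_mul, abs_mul, abs_mul, abs_mul, abs_two, abs_pow, mul_assoc]
    calc 2 * |(M : ℝ)| * (|(a : ℝ)| ^ (2 * r + 1) * |(b : ℝ)|) ≤ 2 * |(M : ℝ)| * (hq q : ℝ) ^ (2 * r + 2) :=
          mul_le_mul_of_nonneg_left hab2 (by positivity)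
      _ ≤ (2 * |(M : ℝ)| + 2 * C₀) * (hq q : ℝ) ^ (2 * r + 2) := mul_le_mul_of_nonneg_right (by linarith) hHp
  · refine (L1_mul _ _).trans ?_
    have h1 : L1 (X j₀ ^ (2 * r + 1) : MvPolynomial h ℤ) ≤ 1 := by
      refine (L1_pow _ _).trans ?_
      rw [L1_X, one_pow]
    rw [L1_C]
    push_cast
    rw [abs_mul, abs_neg, abs_two]
    calc 2 * |((n : ℤ) : ℝ)| * L1 (X j₀ ^ (2 * r + 1) : MvPolynomial h ℤ) ≤ 2 * |((n : ℤ) : ℝ)| * 1 :=
          mul_le_mul_of_nonneg_left h1 (by positivity)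
      _ ≤ 2 * (C₀ * (hq q : ℝ) ^ (2 * r + 2)) := by linarith
      _ ≤ (2 * |(M : ℝ)| + 2 * C₀) * (hq q : ℝ) ^ (2 * r + 2) := by
          have : 0 ≤ 2 * |(M : ℝ)| * (hq q : ℝ) ^ (2 * r + 2) := by positivity
          linarith
  · refine (totalDegree_mul _ _).trans ?_
    rw [totalDegree_C, zero_add, totalDegree_X_pow]
  · have hz : 0 < ((q : ℂ)).re := by
      have : ((q : ℂ)).re = (q : ℝ) := by simp
      rw [this]
      exact_mod_cast hq0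
    have hqd : (q : ℂ) = (a : ℂ) / (b : ℂ) := by
      conv_lhs => rw [← Rat.num_div_den q]
      rw [hb]
      push_cast
      rfl
    have h1 := ram hr hz
    have h2 : ZZ (2 * r + 2) / (2 * π) * (1 / (q : ℂ) - (-1) ^ r * (q : ℂ) ^ (2 * r + 1)) +
        1 / π * ∑ j ∈ Finset.range r, (-1) ^ j * (q : ℂ) ^ (2 * j + 1) * (ZZ (2 * (r - j)) * ZZ (2 * (j + 1))) =
        rho r ((a : ℂ) / b) := by
      rw [← hqd]
      rfl
    rw [h2] at h1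
    have h3 := rho_rat hu hv (a := a) (b := b) ha0.ne' hb0.ne'
    rw [← h1, ← hn] at h3
    have ha' : (a : ℂ) ≠ 0 := by exact_mod_cast ha0.ne'
    have hb' : (b : ℂ) ≠ 0 := by exact_mod_cast hb0.ne'
    have h4 : (b : ℂ) ^ (2 * r) * (q : ℂ) ^ (2 * r) = a ^ (2 * r) := by
      rw [← mul_pow, hqd, mul_div_cancel₀ _ hb']
    have hl : aeval c (C (-2 * n) * X j₀ ^ (2 * r + 1) : MvPolynomial h ℤ) = -2 * n * π ^ (2 * r + 1) := by
      rw [map_mul, map_pow, aeval_X, hc, aeval_C]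
      simp
    rw [hl]
    push_cast
    have e7 : (a : ℂ) ^ (2 * r + 1) = a ^ (2 * r) * a := pow_succ _ _
    have e8 : (b : ℂ) ^ (2 * r + 1) = b ^ (2 * r) * b := pow_succ _ _
    rw [e8] at h3 ⊢
    rw [e7]
    generalize SS (2 * r + 1) (q : ℂ) = Xq at *
    generalize SS (2 * r + 1) (1 / (q : ℂ)) = Yq at *
    generalize ZZ (2 * r + 1) = Z at *
    linear_combination (-2) * h3 - (2 * M * a * b * (-1) ^ r * (Yq + 1 / 2 * Z)) * h4

/-- the second values -/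
noncomputable def YS (g : ℕ) (q : ℚ) (i : Fin g) : ℂ := SV g (1 / (q : ℂ)) i

theorem crit_pi {g : ℕ} {h : Type} [Fintype h] [DecidableEq h] (c : h → ℂ) (j₀ : h) (hc : c j₀ = (π : ℂ)) :
    (AlgebraicIndependent ℚ (Sum.elim (fun i : Fin g => ZZ (2 * ((i : ℕ) + 1) + 1)) c) ↔
      ∀ d A : ℕ, ∃ q : ℚ, 0 < q ∧ q ≠ 1 ∧ ¬ Relat d ((hq q : ℝ) ^ A) (vals (fun (i : Fin g) z => SV g z i) (YS g) c q)) ∧
    (AlgebraicIndependent ℚ (Sum.elim (fun i : Fin g => ZZ (2 * ((i : ℕ) + 1) + 1)) c) ↔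
      ∀ (d A : ℕ) (a b ε : ℝ), 0 < a → 0 < ε → ∃ C : ℝ, ∀ T : ℕ, 1 ≤ T →
      ({q : ℚ | a ≤ q ∧ (q : ℝ) ≤ b ∧ q ≠ 1 ∧ hq q ≤ T ∧
        Relat d ((T : ℝ) ^ A) (vals (fun (i : Fin g) z => SV g z i) (YS g) c q)}.ncard : ℝ) ≤ C * (T : ℝ) ^ ε) := by
  have hd := fun i : Fin g => SS_data (r := (i : ℕ) + 1) (by omega)
  choose C₀ hC₀ hC₁ using hd
  refine crit (fun i => SS_an (by omega)) (fun _ ht => locInd_SV g ht) (C₁ := 1 + ∑ i, C₀ i) (E := 2 * g + 2)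
    (D := 2 * g + 1) ?_ ?_
  · have : 0 ≤ ∑ i, C₀ i := Finset.sum_nonneg fun i _ => hC₀ i
    linarith
  · intro q hq0 hq1
    have h1 := fun i : Fin g => hC₁ i c j₀ hc q hq0 hq1
    choose a b e l h1 using h1
    have hH : (1 : ℝ) ≤ hq q := by exact_mod_cast hq_pos q
    have hup : ∀ i : Fin g, C₀ i * (hq q : ℝ) ^ (2 * ((i : ℕ) + 1) + 2) ≤
        (1 + ∑ i, C₀ i) * (hq q : ℝ) ^ (2 * g + 2) := by
      intro i
      have h2 : C₀ i ≤ ∑ i, C₀ i := Finset.single_le_sum (fun i _ => hC₀ i) (Finset.mem_univ i)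
      have h3 : (hq q : ℝ) ^ (2 * ((i : ℕ) + 1) + 2) ≤ (hq q : ℝ) ^ (2 * g + 2) :=
        pow_le_pow_right₀ hH (by have := i.2; omega)
      have h4 : 0 ≤ ∑ i, C₀ i := Finset.sum_nonneg fun i _ => hC₀ i
      exact mul_le_mul (by linarith) h3 (by positivity) (by linarith)
    refine ⟨a, b, e, l, fun i => ?_⟩
    obtain ⟨k1, k2, k3, k4, k5, k6, k7, k8⟩ := h1 i
    refine ⟨k1, k2, k3.trans (hup i), k4.trans (hup i), k5.trans (hup i), k6.trans (hup i), k7.trans ?_, k8⟩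
    have := i.2
    omega

end Pool.Agent.Helper8.EI
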