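import Mathlib

set_option autoImplicit false

/-!
# Lambert series: the three-term relation of Ramanujan

For `k = 2 r + 1`, `r ≥ 1`, and `z` in the right half plane let `SS k z = ∑_{n ≥ 1} n^(-k) / (exp (2 π n z) - 1)`. The
relation between `SS k z` and `SS k (1 / z)` is proved by partial fractions.
-/

open Complex Filter Topology Real

namespace Pool.Agent.Helper8.EI

/-- `∑_{n ≥ 1} n^(-k) / (exp (2 π n z) - 1)` -/
noncomputable def SS (k : ℕ) (z : ℂ) : ℂ :=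
  ∑' n : ℕ, 1 / (((n : ℂ) + 1) ^ k * (Complex.exp (2 * π * (n + 1) * z) - 1))

/-- `∑_{n ≥ 1} n^(-k)` -/
noncomputable def ZZ (k : ℕ) : ℂ := ∑' n : ℕ, 1 / ((n : ℂ) + 1) ^ k

theorem nexp_sub_one {w : ℂ} : Real.exp w.re - 1 ≤ ‖Complex.exp w - 1‖ := by
  have h := norm_sub_norm_le (Complex.exp w) 1
  rw [Complex.norm_exp, norm_one] at h
  exact h

theorem exp_sub_ne {u : ℂ} (hu : 0 < u.re) : Complex.exp (2 * π * u) - 1 ≠ 0 := by
  intro h
  have h1 := nexp_sub_one (w := 2 * π * u)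
  rw [h, norm_zero] at h1
  have h2 : (2 * π * u : ℂ).re = 2 * π * u.re := by
    have : (2 * π * u : ℂ) = ((2 * π : ℝ) : ℂ) * u := by push_cast; ring
    rw [this, Complex.re_ofReal_mul]
  rw [h2] at h1
  have h3 : 0 < 2 * π * u.re := by positivity
  have h4 := Real.add_one_lt_exp h3.ne'
  linarith

theorem mem_ic {u : ℂ} (hu : 0 < u.re) : I * u ∈ Complex.integerComplement := by
  rw [Complex.mem_integerComplement_iff]
  rintro ⟨n, hn⟩
  have := congrArg Complex.im hn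
  simp at this
  linarith

/-- partial fractions of `1 / (exp (2 π u) - 1)` -/
theorem coth_series {u : ℂ} (hu : 0 < u.re) :
    1 / (Complex.exp (2 * π * u) - 1) =
      -1 / 2 + 1 / (2 * π * u) + u / π * ∑' m : ℕ, 1 / (u ^ 2 + ((m : ℂ) + 1) ^ 2) := by
  have hx := mem_ic hu
  have h1 := cot_series_rep' hx
  have hu0 : u ≠ 0 := by
    rintro rfl
    simp at hu
  have hpi : (π : ℂ) ≠ 0 := by exact_mod_cast Real.pi_ne_zero
  have hE := exp_sub_ne hu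
  have hterm : ∀ n : ℕ, (1 / (I * u - (n + 1)) + 1 / (I * u + (n + 1)) : ℂ) =
      (-2 * I * u) * (1 / (u ^ 2 + ((n : ℂ) + 1) ^ 2)) := by
    intro n
    have ha : I * u - (n + 1) ≠ 0 := by
      have := Complex.integerComplement_add_ne_zero hx (-(n + 1) : ℤ)
      simpa [sub_eq_add_neg] using this
    have hb : I * u + (n + 1) ≠ 0 := by
      have := Complex.integerComplement_add_ne_zero hx ((n + 1) : ℤ)
      simpa using this
    have hc : u ^ 2 + ((n : ℂ) + 1) ^ 2 ≠ 0 := by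
      have : u ^ 2 + ((n : ℂ) + 1) ^ 2 = -((I * u - (n + 1)) * (I * u + (n + 1))) := by
        ring_nf
        rw [I_sq]
        ring
      rw [this]
      exact neg_ne_zero.2 (mul_ne_zero ha hb)
    rw [div_add_div _ _ ha hb, mul_one_div, div_eq_div_iff (mul_ne_zero ha hb) hc]
    linear_combination (2 * I * u ^ 3) * I_sq
  have h2 : ∑' n : ℕ, (1 / (I * u - (n + 1)) + 1 / (I * u + (n + 1)) : ℂ) =
      (-2 * I * u) * ∑' m : ℕ, 1 / (u ^ 2 + ((m : ℂ) + 1) ^ 2) := by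
    rw [tsum_congr hterm, tsum_mul_left]
  rw [h2, Complex.cot_pi_eq_exp_ratio] at h1
  have h3 : (2 * π * I * (I * u) : ℂ) = -(2 * π * u) := by
    rw [show (2 * π * I * (I * u) : ℂ) = 2 * π * (I * I) * u by ring, I_mul_I]
    ring
  rw [h3, Complex.exp_neg] at h1
  set E := Complex.exp (2 * π * u) with hEdef
  have hE0 : E ≠ 0 := Complex.exp_ne_zero _
  set WW := ∑' m : ℕ, 1 / (u ^ 2 + ((m : ℂ) + 1) ^ 2) with hS
  have hE1 : (1 : ℂ) - E⁻¹ ≠ 0 := by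
    intro h
    apply hE
    have : E * (1 - E⁻¹) = 0 := by rw [h, mul_zero]
    rw [mul_sub, mul_inv_cancel₀ hE0, mul_one] at this
    exact this
  have h4 : (E⁻¹ + 1) / (I * (1 - E⁻¹)) = -I * ((E + 1) / (E - 1)) := by
    rw [div_eq_iff (mul_ne_zero I_ne_zero hE1)]
    have : (1 : ℂ) - E⁻¹ = (E - 1) / E := by field_simp
    rw [this]
    field_simp
    rw [I_sq]
    ring
  rw [h4] at h1
  have h5 : (1 : ℂ) / (I * u) = -I / u := by
    rw [div_eq_div_iff (mul_ne_zero I_ne_zero hu0) hu0]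
    ring_nf
    rw [I_sq]
    ring
  rw [h5] at h1
  have h6 : (π : ℂ) * ((E + 1) / (E - 1)) = 1 / u + 2 * u * WW := by
    have : (-I) * ((π : ℂ) * ((E + 1) / (E - 1)) - (1 / u + 2 * u * WW)) = 0 := by
      have h7 : (-I) * ((π : ℂ) * ((E + 1) / (E - 1)) - (1 / u + 2 * u * WW)) =
          (π * (-I * ((E + 1) / (E - 1))) - -I / u) - (-2 * I * u * WW) := by ring
      rw [h7, h1, sub_self]
    rcases mul_eq_zero.1 this with h | h
    · exact absurd h (neg_ne_zero.2 I_ne_zero)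
    · exact sub_eq_zero.1 h
  have h8 : (E + 1) / (E - 1) = 1 + 2 * (1 / (E - 1)) := by
    field_simp
    ring
  rw [h8] at h6
  have h9 : 1 / (E - 1) = ((1 / u + 2 * u * WW) / π - 1) / 2 := by
    rw [← h6]
    field_simp
    ring
  rw [h9]
  field_simp
  ring

theorem quad_lower {z : ℂ} (hz : 0 < z.re) {s t : ℝ} (hs : 0 ≤ s) (ht : 0 ≤ t) :
    z.re / (2 * ‖z‖) * s ^ 2 ≤ ‖(t : ℂ) ^ 2 * z ^ 2 + (s : ℂ) ^ 2‖ := by
  have hzn : 0 < ‖z‖ := lt_of_lt_of_le hz (le_trans (le_abs_self _) (Complex.abs_re_le_norm z))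
  have hle : z.re ≤ ‖z‖ := le_trans (le_abs_self _) (Complex.abs_re_le_norm z)
  set c := z.re / (2 * ‖z‖) with hc
  have hc0 : 0 < c := by positivity
  have hc2 : c ≤ 1 / 2 := by
    rw [hc, div_le_iff₀ (by positivity)]
    linarith
  have hfac : (t : ℂ) ^ 2 * z ^ 2 + (s : ℂ) ^ 2 = (t * z + I * s) * (t * z - I * s) := by
    linear_combination ((s : ℂ) ^ 2) * I_sq
  rw [hfac, norm_mul]
  have hIs : ‖I * (s : ℂ)‖ = s := by
    rw [norm_mul, norm_I, one_mul, Complex.norm_real, Real.norm_of_nonneg hs]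
  have htz : ‖(t : ℂ) * z‖ = t * ‖z‖ := by
    rw [norm_mul, Complex.norm_real, Real.norm_of_nonneg ht]
  have hA : c * s ≤ ‖(t : ℂ) * z + I * s‖ := by
    by_cases h : t * ‖z‖ ≤ s / 2
    · have h1 := norm_sub_norm_le (I * (s : ℂ)) (-((t : ℂ) * z))
      rw [norm_neg, hIs, htz, sub_neg_eq_add, add_comm] at h1
      nlinarith
    · push Not at h
      have h1 : t * z.re ≤ ‖(t : ℂ) * z + I * s‖ := by
        refine le_trans (le_of_eq ?_) (le_trans (le_abs_self _) (Complex.abs_re_le_norm _))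
        simp
      refine le_trans ?_ h1
      rw [hc, div_mul_eq_mul_div, div_le_iff₀ (by positivity)]
      nlinarith
  have hB : c * s ≤ ‖(t : ℂ) * z - I * s‖ := by
    by_cases h : t * ‖z‖ ≤ s / 2
    · have h1 := norm_sub_norm_le (I * (s : ℂ)) ((t : ℂ) * z)
      rw [hIs, htz, norm_sub_rev] at h1
      nlinarith
    · push Not at h
      have h1 : t * z.re ≤ ‖(t : ℂ) * z - I * s‖ := by
        refine le_trans (le_of_eq ?_) (le_trans (le_abs_self _) (Complex.abs_re_le_norm _))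
        simp
      refine le_trans ?_ h1
      rw [hc, div_mul_eq_mul_div, div_le_iff₀ (by positivity)]
      nlinarith
  have hAB : 2 * s ≤ ‖(t : ℂ) * z + I * s‖ + ‖(t : ℂ) * z - I * s‖ := by
    have h1 := norm_sub_le ((t : ℂ) * z + I * s) ((t : ℂ) * z - I * s)
    have h2 : ((t : ℂ) * z + I * s) - ((t : ℂ) * z - I * s) = 2 * (I * s) := by ring
    rw [h2, norm_mul, hIs] at h1
    simpa using h1
  set A := ‖(t : ℂ) * z + I * s‖
  set B := ‖(t : ℂ) * z - I * s‖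
  have hA0 : 0 ≤ A := norm_nonneg _
  have hB0 : 0 ≤ B := norm_nonneg _
  by_cases h : s ≤ A
  · calc c * s ^ 2 = s * (c * s) := by ring
      _ ≤ A * B := mul_le_mul h hB (by positivity) hA0
  · push Not at h
    have h' : s ≤ B := by linarith
    calc c * s ^ 2 = (c * s) * s := by ring
      _ ≤ A * B := mul_le_mul hA h' hs hA0

theorem quad_ne {z : ℂ} (hz : 0 < z.re) (n m : ℕ) : ((n : ℂ) + 1) ^ 2 * z ^ 2 + ((m : ℂ) + 1) ^ 2 ≠ 0 := by
  intro h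
  have h1 := quad_lower hz (s := (m : ℝ) + 1) (t := (n : ℝ) + 1) (by positivity) (by positivity)
  have hzn : 0 < ‖z‖ := lt_of_lt_of_le hz (le_trans (le_abs_self _) (Complex.abs_re_le_norm z))
  push_cast at h1
  rw [h, norm_zero] at h1
  have : 0 < z.re / (2 * ‖z‖) * ((m : ℝ) + 1) ^ 2 := by positivity
  linarith

theorem summable_inv {k : ℕ} (hk : 2 ≤ k) : Summable fun n : ℕ => 1 / ((n : ℝ) + 1) ^ k := by
  have h := (Real.summable_one_div_nat_pow (p := k)).2 (by omega)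
  have h1 := (summable_nat_add_iff 1).2 h
  refine h1.congr fun n => ?_
  push_cast
  rfl

theorem norm_succ (n : ℕ) : ‖(n : ℂ) + 1‖ = (n : ℝ) + 1 := by
  have : (n : ℂ) + 1 = ((n + 1 : ℕ) : ℂ) := by push_cast; rfl
  rw [this, Complex.norm_natCast]
  push_cast
  rfl

theorem summable_invC {k : ℕ} (hk : 2 ≤ k) : Summable fun n : ℕ => 1 / ((n : ℂ) + 1) ^ k := by
  refine Summable.of_norm ((summable_inv hk).congr fun n => ?_)
  rw [norm_div, norm_one, norm_pow, norm_succ]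

theorem summable_prod_inv {a b : ℕ} (ha : 2 ≤ a) (hb : 2 ≤ b) :
    Summable fun p : ℕ × ℕ => (1 / ((p.1 : ℝ) + 1) ^ a) * (1 / ((p.2 : ℝ) + 1) ^ b) :=
  (summable_inv ha).mul_of_nonneg (summable_inv hb) (fun _ => by positivity) fun _ => by positivity

/-- the double series -/
noncomputable def DD (r : ℕ) (z : ℂ) : ℂ :=
  ∑' p : ℕ × ℕ, 1 / (((p.1 : ℂ) + 1) ^ (2 * r) * (((p.1 : ℂ) + 1) ^ 2 * z ^ 2 + ((p.2 : ℂ) + 1) ^ 2))

theorem summable_DD {r : ℕ} (hr : 1 ≤ r) {z : ℂ} (hz : 0 < z.re) :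
    Summable fun p : ℕ × ℕ =>
      1 / (((p.1 : ℂ) + 1) ^ (2 * r) * (((p.1 : ℂ) + 1) ^ 2 * z ^ 2 + ((p.2 : ℂ) + 1) ^ 2)) := by
  have hzn : 0 < ‖z‖ := lt_of_lt_of_le hz (le_trans (le_abs_self _) (Complex.abs_re_le_norm z))
  set c := z.re / (2 * ‖z‖) with hc
  have hc0 : 0 < c := by positivity
  refine Summable.of_norm_bounded ((summable_prod_inv (a := 2 * r) (b := 2) (by omega) le_rfl).mul_left (1 / c)) ?_
  intro p
  rw [norm_div, norm_one, norm_mul, norm_pow, norm_succ]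
  have h1 := quad_lower hz (s := (p.2 : ℝ) + 1) (t := (p.1 : ℝ) + 1) (by positivity) (by positivity)
  push_cast at h1
  rw [← hc] at h1
  have h2 : 0 < c * ((p.2 : ℝ) + 1) ^ 2 := by positivity
  calc 1 / (((p.1 : ℝ) + 1) ^ (2 * r) * ‖((p.1 : ℂ) + 1) ^ 2 * z ^ 2 + ((p.2 : ℂ) + 1) ^ 2‖)
      ≤ 1 / (((p.1 : ℝ) + 1) ^ (2 * r) * (c * ((p.2 : ℝ) + 1) ^ 2)) := by gcongr
    _ = 1 / c * (1 / ((p.1 : ℝ) + 1) ^ (2 * r) * (1 / ((p.2 : ℝ) + 1) ^ 2)) := by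
        field_simp

theorem SS_eq {r : ℕ} (hr : 1 ≤ r) {z : ℂ} (hz : 0 < z.re) :
    SS (2 * r + 1) z = -1 / 2 * ZZ (2 * r + 1) + ZZ (2 * r + 2) / (2 * π * z) + z / π * DD r z := by
  have hpi : (π : ℂ) ≠ 0 := by exact_mod_cast Real.pi_ne_zero
  have hz0 : z ≠ 0 := by
    rintro rfl
    simp at hz
  have hsum := summable_DD hr hz
  have hterm : ∀ n : ℕ, 1 / (((n : ℂ) + 1) ^ (2 * r + 1) * (Complex.exp (2 * π * (n + 1) * z) - 1)) =
      -1 / 2 * (1 / ((n : ℂ) + 1) ^ (2 * r + 1)) + (1 / (2 * π * z)) * (1 / ((n : ℂ) + 1) ^ (2 * r + 2)) +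
      z / π * ∑' m : ℕ, 1 / (((n : ℂ) + 1) ^ (2 * r) * (((n : ℂ) + 1) ^ 2 * z ^ 2 + ((m : ℂ) + 1) ^ 2)) := by
    intro n
    have hn0 : (n : ℂ) + 1 ≠ 0 := by exact_mod_cast Nat.succ_ne_zero n
    have hre : 0 < (((n : ℂ) + 1) * z).re := by
      have : ((n : ℂ) + 1) * z = (((n : ℝ) + 1 : ℝ) : ℂ) * z := by push_cast; ring
      rw [this, Complex.re_ofReal_mul]
      positivity
    have h1 := coth_series hre
    have h2 : (2 * π * ((n : ℂ) + 1) * z : ℂ) = 2 * π * (((n : ℂ) + 1) * z) := by ring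
    rw [h2, ← one_div_mul_one_div, h1]
    have h3 : ∑' m : ℕ, 1 / (((n : ℂ) + 1) ^ (2 * r) * (((n : ℂ) + 1) ^ 2 * z ^ 2 + ((m : ℂ) + 1) ^ 2)) =
        1 / ((n : ℂ) + 1) ^ (2 * r) * ∑' m : ℕ, 1 / ((((n : ℂ) + 1) * z) ^ 2 + ((m : ℂ) + 1) ^ 2) := by
      rw [← tsum_mul_left]
      refine tsum_congr fun m => ?_
      rw [mul_pow, one_div_mul_one_div]
    rw [h3]
    set WW := ∑' m : ℕ, 1 / ((((n : ℂ) + 1) * z) ^ 2 + ((m : ℂ) + 1) ^ 2)
    field_simp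
    ring
  have hs1 := summable_invC (k := 2 * r + 1) (by omega)
  have hs2 := summable_invC (k := 2 * r + 2) (by omega)
  have hs3 := hsum.prod
  rw [SS, tsum_congr hterm, Summable.tsum_add ((hs1.mul_left _).add (hs2.mul_left _)) (hs3.mul_left _),
    Summable.tsum_add (hs1.mul_left _) (hs2.mul_left _), tsum_mul_left, tsum_mul_left, tsum_mul_left]
  rw [DD, hsum.tsum_prod]
  rw [ZZ, ZZ]
  ring

theorem pf {N M z : ℂ} (hN : N ≠ 0) (hM : M ≠ 0) (hS : N ^ 2 * z ^ 2 + M ^ 2 ≠ 0) (r : ℕ) :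
    1 / (N ^ (2 * r) * (N ^ 2 * z ^ 2 + M ^ 2)) - (-1) ^ r * z ^ (2 * r) * (1 / (M ^ (2 * r) * (N ^ 2 * z ^ 2 + M ^ 2))) =
      ∑ j ∈ Finset.range r, (-1) ^ j * z ^ (2 * j) * (1 / N ^ (2 * (r - j)) * (1 / M ^ (2 * (j + 1)))) := by
  induction r with
  | zero => simp
  | succ r ih =>
    rw [Finset.sum_range_succ]
    have h1 : ∀ j ∈ Finset.range r, (-1) ^ j * z ^ (2 * j) * (1 / N ^ (2 * (r + 1 - j)) * (1 / M ^ (2 * (j + 1)))) =
        1 / N ^ 2 * ((-1) ^ j * z ^ (2 * j) * (1 / N ^ (2 * (r - j)) * (1 / M ^ (2 * (j + 1))))) := by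
      intro j hj
      have hj' := Finset.mem_range.1 hj
      rw [show 2 * (r + 1 - j) = 2 * (r - j) + 2 by omega, pow_add]
      field_simp
    rw [Finset.sum_congr rfl h1, ← Finset.mul_sum, ← ih]
    rw [show 2 * (r + 1 - r) = 2 by omega, show 2 * (r + 1) = 2 * r + 2 by ring, pow_succ (-1 : ℂ) r]
    rw [pow_add, pow_add, pow_add]
    field_simp
    ring

/-- the swapped double series -/
noncomputable def EE (r : ℕ) (z : ℂ) : ℂ :=
  ∑' p : ℕ × ℕ, 1 / (((p.2 : ℂ) + 1) ^ (2 * r) * (((p.1 : ℂ) + 1) ^ 2 * z ^ 2 + ((p.2 : ℂ) + 1) ^ 2))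

theorem re_inv_pos {z : ℂ} (hz : 0 < z.re) : 0 < (1 / z).re := by
  have hz0 : z ≠ 0 := by
    rintro rfl
    simp at hz
  rw [one_div, Complex.inv_re]
  exact div_pos hz (Complex.normSq_pos.2 hz0)

theorem EE_term {r : ℕ} {z : ℂ} (hz : 0 < z.re) (p : ℕ × ℕ) :
    1 / (((p.2 : ℂ) + 1) ^ (2 * r) * (((p.1 : ℂ) + 1) ^ 2 * z ^ 2 + ((p.2 : ℂ) + 1) ^ 2)) =
      1 / z ^ 2 * (1 / (((p.2 : ℂ) + 1) ^ (2 * r) * (((p.2 : ℂ) + 1) ^ 2 * (1 / z) ^ 2 + ((p.1 : ℂ) + 1) ^ 2))) := by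
  have hz0 : z ≠ 0 := by
    rintro rfl
    simp at hz
  rw [one_div_mul_one_div]
  congr 1
  field_simp
  ring

theorem summable_EE {r : ℕ} (hr : 1 ≤ r) {z : ℂ} (hz : 0 < z.re) :
    Summable fun p : ℕ × ℕ =>
      1 / (((p.2 : ℂ) + 1) ^ (2 * r) * (((p.1 : ℂ) + 1) ^ 2 * z ^ 2 + ((p.2 : ℂ) + 1) ^ 2)) := by
  have h := summable_DD hr (re_inv_pos hz)
  have h1 := ((Equiv.prodComm ℕ ℕ).summable_iff.2 h).mul_left (1 / z ^ 2)
  refine h1.congr fun p => ?_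
  rw [EE_term hz p]
  rfl

theorem DD_inv {r : ℕ} {z : ℂ} (hz : 0 < z.re) : DD r (1 / z) = z ^ 2 * EE r z := by
  have hz0 : z ≠ 0 := by
    rintro rfl
    simp at hz
  have h : EE r z = 1 / z ^ 2 * DD r (1 / z) := by
    rw [EE, tsum_congr (EE_term hz), tsum_mul_left, DD]
    congr 1
    exact (Equiv.prodComm ℕ ℕ).tsum_eq
      fun p : ℕ × ℕ => 1 / (((p.1 : ℂ) + 1) ^ (2 * r) * (((p.1 : ℂ) + 1) ^ 2 * (1 / z) ^ 2 + ((p.2 : ℂ) + 1) ^ 2))
  rw [h]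
  field_simp

theorem DD_sub_EE {r : ℕ} (hr : 1 ≤ r) {z : ℂ} (hz : 0 < z.re) :
    DD r z - (-1) ^ r * z ^ (2 * r) * EE r z =
      ∑ j ∈ Finset.range r, (-1) ^ j * z ^ (2 * j) * (ZZ (2 * (r - j)) * ZZ (2 * (j + 1))) := by
  have h1 := summable_DD hr hz
  have h2 := summable_EE hr hz
  rw [DD, EE, ← tsum_mul_left, ← h1.tsum_sub (h2.mul_left _)]
  have h3 : ∀ p : ℕ × ℕ,
      1 / (((p.1 : ℂ) + 1) ^ (2 * r) * (((p.1 : ℂ) + 1) ^ 2 * z ^ 2 + ((p.2 : ℂ) + 1) ^ 2)) -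
      (-1) ^ r * z ^ (2 * r) *
        (1 / (((p.2 : ℂ) + 1) ^ (2 * r) * (((p.1 : ℂ) + 1) ^ 2 * z ^ 2 + ((p.2 : ℂ) + 1) ^ 2))) =
      ∑ j ∈ Finset.range r, (-1) ^ j * z ^ (2 * j) *
        (1 / ((p.1 : ℂ) + 1) ^ (2 * (r - j)) * (1 / ((p.2 : ℂ) + 1) ^ (2 * (j + 1)))) := fun p =>
    pf (by exact_mod_cast Nat.succ_ne_zero p.1) (by exact_mod_cast Nat.succ_ne_zero p.2) (quad_ne hz p.1 p.2) r
  rw [tsum_congr h3]
  have h4 : ∀ j ∈ Finset.range r, Summable fun p : ℕ × ℕ => (-1 : ℂ) ^ j * z ^ (2 * j) *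
        (1 / ((p.1 : ℂ) + 1) ^ (2 * (r - j)) * (1 / ((p.2 : ℂ) + 1) ^ (2 * (j + 1)))) := by
    intro j hj
    have hj' := Finset.mem_range.1 hj
    refine Summable.mul_left _ ?_
    refine Summable.of_norm ((summable_prod_inv (a := 2 * (r - j)) (b := 2 * (j + 1)) (by omega) (by omega)).congr ?_)
    intro p
    rw [norm_mul, norm_div, norm_div, norm_one, norm_pow, norm_pow, norm_succ, norm_succ]
  rw [Summable.tsum_finsetSum h4]
  refine Finset.sum_congr rfl fun j hj => ?_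
  have hj' := Finset.mem_range.1 hj
  rw [tsum_mul_left]
  congr 1
  rw [ZZ, ZZ]
  refine (tsum_mul_tsum_of_summable_norm (f := fun n : ℕ => 1 / ((n : ℂ) + 1) ^ (2 * (r - j)))
    (g := fun n : ℕ => 1 / ((n : ℂ) + 1) ^ (2 * (j + 1))) ?_ ?_).symm
  · refine (summable_inv (k := 2 * (r - j)) (by omega)).congr fun n => ?_
    rw [norm_div, norm_one, norm_pow, norm_succ]
  · refine (summable_inv (k := 2 * (j + 1)) (by omega)).congr fun n => ?_
    rw [norm_div, norm_one, norm_pow, norm_succ]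

/-- Ramanujan's relation -/
theorem ram {r : ℕ} (hr : 1 ≤ r) {z : ℂ} (hz : 0 < z.re) :
    SS (2 * r + 1) z + 1 / 2 * ZZ (2 * r + 1) -
      (-1) ^ r * z ^ (2 * r) * (SS (2 * r + 1) (1 / z) + 1 / 2 * ZZ (2 * r + 1)) =
    ZZ (2 * r + 2) / (2 * π) * (1 / z - (-1) ^ r * z ^ (2 * r + 1)) +
      1 / π * ∑ j ∈ Finset.range r, (-1) ^ j * z ^ (2 * j + 1) * (ZZ (2 * (r - j)) * ZZ (2 * (j + 1))) := by
  have hpi : (π : ℂ) ≠ 0 := by exact_mod_cast Real.pi_ne_zero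
  have hz0 : z ≠ 0 := by
    rintro rfl
    simp at hz
  rw [SS_eq hr hz, SS_eq hr (re_inv_pos hz), DD_inv hz]
  have h := DD_sub_EE hr hz
  have h1 : ∑ j ∈ Finset.range r, (-1) ^ j * z ^ (2 * j + 1) * (ZZ (2 * (r - j)) * ZZ (2 * (j + 1))) =
      z * (DD r z - (-1) ^ r * z ^ (2 * r) * EE r z) := by
    rw [h, Finset.mul_sum]
    refine Finset.sum_congr rfl fun j _ => ?_
    rw [pow_succ]
    ring
  rw [h1]
  have h2 : z ^ (2 * r + 1) = z ^ (2 * r) * z := pow_succ _ _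
  rw [h2]
  field_simp
  ring

end Pool.Agent.Helper8.EI
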