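import Mathlib

set_option autoImplicit false

/-!
# Substitutions in polynomials with integral coefficients, with bounds
-/

open MvPolynomial

namespace Pool.Agent.Helper8.EI

/-- sum of the absolute values of the coefficients -/
noncomputable def L1 {σ : Type} (P : MvPolynomial σ ℤ) : ℝ := ∑ s ∈ P.support, |((P.coeff s : ℤ) : ℝ)|

theorem L1_nonneg {σ : Type} (P : MvPolynomial σ ℤ) : 0 ≤ L1 P := Finset.sum_nonneg fun _ _ => abs_nonneg _

theorem L1_eq {σ : Type} (P : MvPolynomial σ ℤ) {S : Finset (σ →₀ ℕ)} (h : P.support ⊆ S) :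
    L1 P = ∑ s ∈ S, |((P.coeff s : ℤ) : ℝ)| := by
  refine Finset.sum_subset h fun s _ hs => ?_
  rw [MvPolynomial.notMem_support_iff.1 hs]
  simp

theorem L1_add {σ : Type} (P Q : MvPolynomial σ ℤ) : L1 (P + Q) ≤ L1 P + L1 Q := by
  classical
  rw [L1_eq (P + Q) MvPolynomial.support_add, L1_eq P (S := P.support ∪ Q.support) Finset.subset_union_left,
    L1_eq Q (S := P.support ∪ Q.support) Finset.subset_union_right, ← Finset.sum_add_distrib]
  refine Finset.sum_le_sum fun s _ => ?_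
  rw [coeff_add]
  push_cast
  exact abs_add_le _ _

theorem L1_zero {σ : Type} : L1 (0 : MvPolynomial σ ℤ) = 0 := by simp [L1]

theorem L1_sum {σ ι : Type} (S : Finset ι) (f : ι → MvPolynomial σ ℤ) : L1 (∑ i ∈ S, f i) ≤ ∑ i ∈ S, L1 (f i) := by
  classical
  induction S using Finset.induction_on with
  | empty => simp [L1_zero]
  | insert a S ha ih =>
    rw [Finset.sum_insert ha, Finset.sum_insert ha]
    exact (L1_add _ _).trans (add_le_add_right ih _)

theorem L1_monomial {σ : Type} (s : σ →₀ ℕ) (a : ℤ) : L1 (monomial s a) = |(a : ℝ)| := by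
  classical
  rw [L1_eq (monomial s a) (S := {s}) support_monomial_subset, Finset.sum_singleton, coeff_monomial, if_pos rfl]

theorem L1_C {σ : Type} (a : ℤ) : L1 (C a : MvPolynomial σ ℤ) = |(a : ℝ)| := L1_monomial 0 a

theorem L1_X {σ : Type} (i : σ) : L1 (X i : MvPolynomial σ ℤ) = 1 := by
  rw [X, L1_monomial]
  simp

theorem L1_monomial_mul {σ : Type} (s : σ →₀ ℕ) (a : ℤ) (Q : MvPolynomial σ ℤ) :
    L1 (monomial s a * Q) ≤ |(a : ℝ)| * L1 Q := by
  classical
  have h : monomial s a * Q = ∑ t ∈ Q.support, monomial (s + t) (a * Q.coeff t) := by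
    conv_lhs => rw [Q.as_sum, Finset.mul_sum]
    exact Finset.sum_congr rfl fun t _ => by rw [monomial_mul]
  rw [h, show |(a : ℝ)| * L1 Q = ∑ t ∈ Q.support, |(a : ℝ)| * |((Q.coeff t : ℤ) : ℝ)| by rw [← Finset.mul_sum]; rfl]
  refine (L1_sum _ _).trans (Finset.sum_le_sum fun t _ => ?_)
  rw [L1_monomial]
  push_cast
  rw [abs_mul]

theorem L1_mul {σ : Type} (P Q : MvPolynomial σ ℤ) : L1 (P * Q) ≤ L1 P * L1 Q := by
  classical
  have h : P * Q = ∑ s ∈ P.support, monomial s (P.coeff s) * Q := by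
    rw [← Finset.sum_mul, ← P.as_sum]
  rw [h]
  refine (L1_sum _ _).trans ?_
  rw [show L1 P * L1 Q = ∑ s ∈ P.support, |((P.coeff s : ℤ) : ℝ)| * L1 Q by rw [← Finset.sum_mul]; rfl]
  exact Finset.sum_le_sum fun s _ => L1_monomial_mul _ _ _

theorem L1_one {σ : Type} : L1 (1 : MvPolynomial σ ℤ) = 1 := by
  have := L1_C (σ := σ) 1
  simpa using this

theorem L1_pow {σ : Type} (P : MvPolynomial σ ℤ) (n : ℕ) : L1 (P ^ n) ≤ L1 P ^ n := by
  induction n with
  | zero => simp [L1_one]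
  | succ n ih =>
    rw [pow_succ, pow_succ]
    exact (L1_mul _ _).trans (mul_le_mul_of_nonneg_right ih (L1_nonneg _))

theorem L1_prod {σ ι : Type} (S : Finset ι) (f : ι → MvPolynomial σ ℤ) : L1 (∏ i ∈ S, f i) ≤ ∏ i ∈ S, L1 (f i) := by
  classical
  induction S using Finset.induction_on with
  | empty => simp [L1_one]
  | insert a S ha ih =>
    rw [Finset.prod_insert ha, Finset.prod_insert ha]
    exact (L1_mul _ _).trans (mul_le_mul_of_nonneg_left ih (L1_nonneg _))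

theorem coeff_le_L1 {σ : Type} (P : MvPolynomial σ ℤ) (s : σ →₀ ℕ) : |((P.coeff s : ℤ) : ℝ)| ≤ L1 P := by
  classical
  by_cases hs : s ∈ P.support
  · exact Finset.single_le_sum (f := fun s => |((P.coeff s : ℤ) : ℝ)|) (fun _ _ => abs_nonneg _) hs
  · rw [MvPolynomial.notMem_support_iff.1 hs]
    simpa using L1_nonneg P

theorem L1_le_box {σ : Type} [Fintype σ] [DecidableEq σ] (P : MvPolynomial σ ℤ) (d : ℕ) (H : ℝ) (hH : 0 ≤ H)
    (hd : ∀ i, P.degreeOf i ≤ d)
    (hc : ∀ s, |((P.coeff s : ℤ) : ℝ)| ≤ H) : L1 P ≤ ((d + 1) ^ Fintype.card σ : ℕ) * H := by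
  have hsub : P.support ⊆ (Finset.univ : Finset (σ → Fin (d + 1))).image
      (fun z => (Finsupp.equivFunOnFinite.symm fun i => (z i : ℕ))) := by
    intro s hs
    refine Finset.mem_image.2 ⟨fun i => ⟨s i, Nat.lt_succ_of_le ((monomial_le_degreeOf i hs).trans (hd i))⟩,
      Finset.mem_univ _, ?_⟩
    ext i
    rfl
  rw [L1_eq P hsub]
  refine (Finset.sum_le_card_nsmul _ _ H fun s _ => hc s).trans ?_
  rw [nsmul_eq_mul]
  refine mul_le_mul_of_nonneg_right ?_ hH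
  have h1 := Finset.card_image_le (s := (Finset.univ : Finset (σ → Fin (d + 1))))
    (f := fun z => (Finsupp.equivFunOnFinite.symm fun i => (z i : ℕ)))
  rw [Finset.card_univ, Fintype.card_fun, Fintype.card_fin] at h1
  exact_mod_cast h1

/-- substitution of `Λ i / δ i` for `X i`, with the denominators cleared -/
noncomputable def subs {σ τ : Type} [Fintype σ] (d : ℕ) (δ : σ → ℤ) (Λ : σ → MvPolynomial τ ℤ) (P : MvPolynomial σ ℤ) :
    MvPolynomial τ ℤ :=
  ∑ s ∈ P.support, C (P.coeff s) * ∏ i, (Λ i ^ s i * C (δ i) ^ (d - s i))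

theorem subs_aeval {σ τ : Type} [Fintype σ] {d : ℕ} {δ : σ → ℤ} {Λ : σ → MvPolynomial τ ℤ} {P : MvPolynomial σ ℤ}
    (hd : ∀ i, P.degreeOf i ≤ d) {v : τ → ℂ} {w : σ → ℂ} (h : ∀ i, (δ i : ℂ) * w i = aeval v (Λ i)) :
    aeval v (subs d δ Λ P) = (∏ i, (δ i : ℂ) ^ d) * aeval w P := by
  rw [subs, map_sum, aeval_def w, eval₂_eq', Finset.mul_sum]
  refine Finset.sum_congr rfl fun s hs => ?_
  rw [map_mul, map_prod]
  have h1 : ∀ i, aeval v (Λ i ^ s i * C (δ i) ^ (d - s i)) = (δ i : ℂ) ^ d * w i ^ s i := by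
    intro i
    have hsi : s i ≤ d := (monomial_le_degreeOf i hs).trans (hd i)
    have e1 : aeval v (C (δ i) : MvPolynomial τ ℤ) = (δ i : ℂ) := by
      rw [aeval_C]
      simp
    rw [map_mul, map_pow, map_pow, e1, ← h i, mul_pow]
    have : (δ i : ℂ) ^ d = (δ i : ℂ) ^ (s i) * (δ i : ℂ) ^ (d - s i) := by
      rw [← pow_add]
      congr 1
      omega
    rw [this]
    ring
  rw [Finset.prod_congr rfl fun i _ => h1 i, Finset.prod_mul_distrib, aeval_C]
  ring

theorem subs_ne {σ τ : Type} [Fintype σ] {d : ℕ} {δ : σ → ℤ} {Λ : σ → MvPolynomial τ ℤ} {P : MvPolynomial σ ℤ}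
    (hd : ∀ i, P.degreeOf i ≤ d) (hδ : ∀ i, δ i ≠ 0) (hs : ∀ w : σ → ℂ, ∃ v : τ → ℂ, ∀ i, (δ i : ℂ) * w i = aeval v (Λ i))
    (hP : P ≠ 0) : subs d δ Λ P ≠ 0 := by
  intro h0
  apply hP
  have h1 : MvPolynomial.map (Int.castRingHom ℂ) P = 0 := by
    refine MvPolynomial.funext fun w => ?_
    obtain ⟨v, hv⟩ := hs w
    have h2 := subs_aeval hd hv
    rw [h0, map_zero] at h2
    have h3 : (∏ i, (δ i : ℂ) ^ d) ≠ 0 := Finset.prod_ne_zero_iff.2 fun i _ => pow_ne_zero _ (by exact_mod_cast hδ i)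
    have h4 := (mul_eq_zero.1 h2.symm).resolve_left h3
    rw [map_zero, eval_map]
    rw [aeval_def] at h4
    exact h4
  exact (MvPolynomial.map_injective _ (Int.cast_injective (α := ℂ))) (by rw [h1, map_zero])

theorem subs_L1 {σ τ : Type} [Fintype σ] {d : ℕ} {δ : σ → ℤ} {Λ : σ → MvPolynomial τ ℤ} {P : MvPolynomial σ ℤ}
    (hd : ∀ i, P.degreeOf i ≤ d) {M : ℝ} (hM : 1 ≤ M) (hδ : ∀ i, |(δ i : ℝ)| ≤ M) (hΛ : ∀ i, L1 (Λ i) ≤ M) :
    L1 (subs d δ Λ P) ≤ L1 P * M ^ (d * Fintype.card σ) := by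
  rw [subs]
  refine (L1_sum _ _).trans ?_
  rw [L1, Finset.sum_mul]
  refine Finset.sum_le_sum fun s hs => ?_
  refine (L1_mul _ _).trans ?_
  rw [L1_C]
  refine mul_le_mul_of_nonneg_left ?_ (abs_nonneg _)
  refine (L1_prod _ _).trans ?_
  rw [pow_mul, ← Finset.card_univ, ← Finset.prod_const]
  refine Finset.prod_le_prod (fun i _ => L1_nonneg _) fun i _ => ?_
  have hsi : s i ≤ d := (monomial_le_degreeOf i hs).trans (hd i)
  calc L1 (Λ i ^ s i * C (δ i) ^ (d - s i)) ≤ L1 (Λ i ^ s i) * L1 (C (δ i) ^ (d - s i)) := L1_mul _ _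
    _ ≤ L1 (Λ i) ^ s i * L1 (C (δ i)) ^ (d - s i) :=
        mul_le_mul (L1_pow _ _) (L1_pow _ _) (L1_nonneg _) (pow_nonneg (L1_nonneg _) _)
    _ ≤ M ^ s i * M ^ (d - s i) := by
        rw [L1_C]
        exact mul_le_mul (pow_le_pow_left₀ (L1_nonneg _) (hΛ i) _) (pow_le_pow_left₀ (abs_nonneg _) (hδ i) _)
          (pow_nonneg (abs_nonneg _) _) (pow_nonneg (by linarith) _)
    _ = M ^ d := by
        rw [← pow_add]
        congr 1
        omega

theorem subs_deg {σ τ : Type} [Fintype σ] {d D : ℕ} {δ : σ → ℤ} {Λ : σ → MvPolynomial τ ℤ} {P : MvPolynomial σ ℤ}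
    (hd : ∀ i, P.degreeOf i ≤ d) (hΛ : ∀ i, (Λ i).totalDegree ≤ D) :
    (subs d δ Λ P).totalDegree ≤ Fintype.card σ * (d * D) := by
  rw [subs]
  refine totalDegree_finsetSum_le fun s hs => ?_
  refine (totalDegree_mul _ _).trans ?_
  rw [totalDegree_C, zero_add]
  refine (totalDegree_finsetProd _ _).trans ?_
  rw [← Finset.card_univ, ← smul_eq_mul]
  refine Finset.sum_le_card_nsmul _ _ _ fun i _ => ?_
  have hsi : s i ≤ d := (monomial_le_degreeOf i hs).trans (hd i)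
  refine (totalDegree_mul _ _).trans ?_
  have h1 : (Λ i ^ s i).totalDegree ≤ d * D :=
    (totalDegree_pow _ _).trans (Nat.mul_le_mul hsi (hΛ i))
  have h2 : (C (δ i) ^ (d - s i) : MvPolynomial τ ℤ).totalDegree = 0 := by
    rw [← C_pow, totalDegree_C]
  omega

end Pool.Agent.Helper8.EI
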