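import Pool.Agent.Helper8.EI.Trans
import Pool.Agent.Helper8.EI.Subst

set_option autoImplicit false

/-!
# The criterion
-/

open MvPolynomial NumberField

namespace Pool.Agent.Helper8.EI

open Pool.Agent.Y120 (HtLe)
open Pool.Agent.Y124 (LocInd)

/-- a nontrivial relation of degree at most `d` with integral coefficients of absolute value at most `H` -/
def Relat {σ : Type} (d : ℕ) (H : ℝ) (v : σ → ℂ) : Prop :=
  ∃ P : MvPolynomial σ ℤ, P ≠ 0 ∧ P.totalDegree ≤ d ∧ (∀ s, |((P.coeff s : ℤ) : ℝ)| ≤ H) ∧ aeval v P = 0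

/-- the height of a rational number -/
def hq (q : ℚ) : ℕ := max q.num.natAbs q.den

theorem L1_rename {σ τ : Type} (g : σ → τ) (P : MvPolynomial σ ℤ) : L1 (rename g P) ≤ L1 P := by
  classical
  have h : rename g P = ∑ s ∈ P.support, monomial (s.mapDomain g) (P.coeff s) := by
    conv_lhs => rw [P.as_sum, map_sum]
    exact Finset.sum_congr rfl fun s _ => by rw [rename_monomial]
  rw [h, show L1 P = ∑ s ∈ P.support, |((P.coeff s : ℤ) : ℝ)| from rfl]
  exact (L1_sum _ _).trans (Finset.sum_le_sum fun s _ => (L1_monomial _ _).le)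

theorem L1_neg {σ : Type} (P : MvPolynomial σ ℤ) : L1 (-P) = L1 P := by
  rw [L1, L1, support_neg]
  refine Finset.sum_congr rfl fun s _ => ?_
  rw [coeff_neg]
  push_cast
  rw [abs_neg]

section

variable {κ h : Type}

/-- linear relations with integral coefficients between `X k`, `Y k`, `Z k` and a polynomial in the constants -/
def HasData (Z : κ → ℂ) (c : h → ℂ) (Xv Yv : κ → ℂ) (M : ℝ) (D : ℕ) : Prop :=
  ∃ (a b e : κ → ℤ) (l : κ → MvPolynomial h ℤ), ∀ k, e k ≠ 0 ∧ b k ≠ 0 ∧ |(a k : ℝ)| ≤ M ∧ |(b k : ℝ)| ≤ M ∧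
    |(e k : ℝ)| ≤ M ∧ L1 (l k) ≤ M ∧ (l k).totalDegree ≤ D ∧
    (e k : ℂ) * Yv k = a k * Xv k + b k * Z k + aeval c (l k)

theorem HasData.swap {Z : κ → ℂ} {c : h → ℂ} {Xv Yv : κ → ℂ} {M : ℝ} {D : ℕ} (H : HasData Z c Xv Yv M D) :
    HasData Yv c Xv Z M D := by
  obtain ⟨a, b, e, l, H⟩ := H
  refine ⟨fun k => -a k, e, b, fun k => -l k, fun k => ?_⟩
  obtain ⟨h1, h2, h3, h4, h5, h6, h7, h8⟩ := H k
  refine ⟨h2, h1, ?_, h5, h4, ?_, ?_, ?_⟩
  · push_cast
    rw [abs_neg]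
    exact h3
  · rw [L1_neg]
    exact h6
  · rw [totalDegree_neg]
    exact h7
  · rw [map_neg]
    push_cast
    linear_combination -h8

variable [Fintype κ] [DecidableEq κ] [Fintype h] [DecidableEq h]

/-- moving a relation -/
theorem relmove {Z : κ → ℂ} {c : h → ℂ} {Xv Yv : κ → ℂ} {M : ℝ} {D : ℕ} (hM : 1 ≤ M)
    (Hd : HasData Z c Xv Yv M D) {d : ℕ} {H : ℝ} (hH : 0 ≤ H)
    (P : MvPolynomial (κ ⊕ (κ ⊕ h)) ℤ) (hP : P ≠ 0) (hd : ∀ i, P.degreeOf i ≤ d)
    (hc : ∀ s, |((P.coeff s : ℤ) : ℝ)| ≤ H) :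
    ∃ (Q : MvPolynomial (κ ⊕ (κ ⊕ h)) ℤ) (N : ℂ), Q ≠ 0 ∧
      Q.totalDegree ≤ Fintype.card (κ ⊕ (κ ⊕ h)) * (d * (D + 1)) ∧
      (∀ s, |((Q.coeff s : ℤ) : ℝ)| ≤
        ((d + 1) ^ Fintype.card (κ ⊕ (κ ⊕ h)) : ℕ) * H * (3 * M) ^ (d * Fintype.card (κ ⊕ (κ ⊕ h)))) ∧
      aeval (Sum.elim Xv (Sum.elim Z c)) Q = N * aeval (Sum.elim Xv (Sum.elim Yv c)) P := by
  obtain ⟨a, b, e, l, Hd⟩ := Hd
  set Λ : κ ⊕ (κ ⊕ h) → MvPolynomial (κ ⊕ (κ ⊕ h)) ℤ := fun i =>
    match i with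
    | Sum.inl k => X (Sum.inl k)
    | Sum.inr (Sum.inl k) => C (a k) * X (Sum.inl k) + C (b k) * X (Sum.inr (Sum.inl k)) +
        rename (fun j => Sum.inr (Sum.inr j)) (l k)
    | Sum.inr (Sum.inr j) => X (Sum.inr (Sum.inr j)) with hΛ
  set δ : κ ⊕ (κ ⊕ h) → ℤ := fun i =>
    match i with
    | Sum.inl _ => 1
    | Sum.inr (Sum.inl k) => e k
    | Sum.inr (Sum.inr _) => 1 with hδ
  have hv : ∀ (x z : κ → ℂ) (u : h → ℂ) (k : κ), aeval (Sum.elim x (Sum.elim z u)) (Λ (Sum.inr (Sum.inl k))) =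
      a k * x k + b k * z k + aeval u (l k) := by
    intro x z u k
    simp only [hΛ]
    rw [map_add, map_add, map_mul, map_mul, aeval_X, aeval_X, aeval_rename]
    have e1 : ∀ n : ℤ, aeval (Sum.elim x (Sum.elim z u)) (C n : MvPolynomial (κ ⊕ (κ ⊕ h)) ℤ) = (n : ℂ) := by
      intro n
      rw [aeval_C]
      simp
    rw [e1, e1]
    rfl
  have hδ0 : ∀ i, δ i ≠ 0 := by
    rintro (k | k | j)
    · exact one_ne_zero
    · exact (Hd k).1
    · exact one_ne_zero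
  have h3M : 1 ≤ 3 * M := by linarith
  refine ⟨subs d δ Λ P, ∏ i, (δ i : ℂ) ^ d, subs_ne hd hδ0 ?_ hP, subs_deg hd ?_, fun s => ?_, subs_aeval hd ?_⟩
  · intro w
    refine ⟨Sum.elim (fun k => w (Sum.inl k)) (Sum.elim (fun k => (e k * w (Sum.inr (Sum.inl k)) - a k * w (Sum.inl k) -
      aeval (fun j => w (Sum.inr (Sum.inr j))) (l k)) / b k) fun j => w (Sum.inr (Sum.inr j))), ?_⟩
    rintro (k | k | j)
    · simp [hδ, hΛ]
    · rw [hv]
      have hb : (b k : ℂ) ≠ 0 := by exact_mod_cast (Hd k).2.1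
      simp only [hδ]
      field_simp
      ring
    · simp [hδ, hΛ]
  · rintro (k | k | j)
    · simp only [hΛ]
      rw [totalDegree_X]
      omega
    · simp only [hΛ]
      refine (totalDegree_add _ _).trans (max_le ((totalDegree_add _ _).trans (max_le ?_ ?_)) ?_)
      · refine (totalDegree_mul _ _).trans ?_
        rw [totalDegree_C, totalDegree_X]
        omega
      · refine (totalDegree_mul _ _).trans ?_
        rw [totalDegree_C, totalDegree_X]
        omega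
      · exact (totalDegree_rename_le _ _).trans ((Hd k).2.2.2.2.2.2.1.trans (by omega))
    · simp only [hΛ]
      rw [totalDegree_X]
      omega
  · refine (coeff_le_L1 _ _).trans ((subs_L1 hd h3M ?_ ?_).trans ?_)
    · rintro (k | k | j)
      · simpa [hδ] using h3M
      · have := (Hd k).2.2.2.2.1
        simp only [hδ]
        linarith
      · simpa [hδ] using h3M
    · rintro (k | k | j)
      · simp only [hΛ]
        rw [L1_X]
        exact h3M
      · simp only [hΛ]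
        obtain ⟨h1, h2, h3, h4, h5, h6, h7, h8⟩ := Hd k
        have e1 : L1 (C (a k) * X (Sum.inl k) : MvPolynomial (κ ⊕ (κ ⊕ h)) ℤ) ≤ M := by
          refine (L1_mul _ _).trans ?_
          rw [L1_C, L1_X, mul_one]
          exact h3
        have e2 : L1 (C (b k) * X (Sum.inr (Sum.inl k)) : MvPolynomial (κ ⊕ (κ ⊕ h)) ℤ) ≤ M := by
          refine (L1_mul _ _).trans ?_
          rw [L1_C, L1_X, mul_one]
          exact h4
        have e3 := (L1_rename (fun j => (Sum.inr (Sum.inr j) : κ ⊕ (κ ⊕ h))) (l k)).trans h6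
        have e4 := L1_add (C (a k) * X (Sum.inl k) + C (b k) * X (Sum.inr (Sum.inl k)) : MvPolynomial (κ ⊕ (κ ⊕ h)) ℤ)
          (rename (fun j => (Sum.inr (Sum.inr j) : κ ⊕ (κ ⊕ h))) (l k))
        have e5 := L1_add (C (a k) * X (Sum.inl k) : MvPolynomial (κ ⊕ (κ ⊕ h)) ℤ) (C (b k) * X (Sum.inr (Sum.inl k)))
        linarith
      · simp only [hΛ]
        rw [L1_X]
        exact h3M
    · exact mul_le_mul_of_nonneg_right (L1_le_box P d H hH hd hc) (pow_nonneg (by linarith) _)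
  · rintro (k | k | j)
    · simp [hδ, hΛ]
    · rw [hv]
      exact (Hd k).2.2.2.2.2.2.2
    · simp [hδ, hΛ]

omit [Fintype κ] [DecidableEq κ] [Fintype h] [DecidableEq h] in
/-- a polynomial which vanishes for all values of the first variables at algebraically independent constants -/
theorem zero_of_forall {u : h → ℂ} (hu : AlgebraicIndependent ℚ u) (Q : MvPolynomial (κ ⊕ h) ℤ)
    (hQ : ∀ w : κ → ℂ, aeval (Sum.elim w u) Q = 0) : Q = 0 := by
  have hinj : Function.Injective (aeval u : MvPolynomial h ℤ →ₐ[ℤ] ℂ) := by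
    rw [injective_iff_map_eq_zero]
    intro p hp
    have h1 : aeval u (map (Int.castRingHom ℚ) p) = 0 := by
      rw [aeval_def, eval₂_map, ← hp, aeval_def]
      congr 1
    have h2 := hu.eq_zero_of_aeval_eq_zero _ h1
    exact (map_injective _ (Int.cast_injective (α := ℚ))) (by rw [h2, map_zero])
  have h1 : map (aeval u : MvPolynomial h ℤ →ₐ[ℤ] ℂ).toRingHom (sumAlgEquiv ℤ κ h Q) = 0 := by
    refine MvPolynomial.funext fun w => ?_
    rw [map_zero]
    have h2 : (aeval (Sum.elim w u) : MvPolynomial (κ ⊕ h) ℤ →ₐ[ℤ] ℂ).toRingHom =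
        ((eval w).comp (map (aeval u : MvPolynomial h ℤ →ₐ[ℤ] ℂ).toRingHom)).comp
          (sumAlgEquiv ℤ κ h).toRingEquiv.toRingHom := by
      apply MvPolynomial.ringHom_ext
      · intro a
        simp
      · rintro (i | i)
        · simp
        · simp
    have h3 := congrArg (fun g : MvPolynomial (κ ⊕ h) ℤ →+* ℂ => g Q) h2
    exact h3.symm.trans (hQ w)
  have h2 : sumAlgEquiv ℤ κ h Q = 0 := (map_injective _ hinj) (by rw [h1, map_zero])
  exact (map_eq_zero_iff _ (sumAlgEquiv ℤ κ h).injective).1 h2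

end

theorem hq_pos (q : ℚ) : 1 ≤ hq q := le_max_of_le_right q.den_pos

theorem two_le_hq {q : ℚ} (h0 : 0 < q) (h1 : q ≠ 1) : 2 ≤ hq q := by
  by_contra h
  push Not at h
  have hq1 : hq q ≤ 1 := by omega
  have hden : q.den = 1 := le_antisymm ((le_max_right _ _).trans hq1) q.den_pos
  have hnum : q.num.natAbs ≤ 1 := (le_max_left _ _).trans hq1
  have hnum0 : 0 < q.num := Rat.num_pos.2 h0
  have hnum1 : q.num = 1 := by omega
  apply h1
  rw [← Rat.num_div_den q, hnum1, hden]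
  norm_num

theorem htLe_of_hq {q : ℚ} {T : ℝ} (h : (hq q : ℝ) ≤ T) : HtLe ℚ T q := by
  have hT : 0 ≤ T := le_trans (Nat.cast_nonneg _) h
  refine ⟨((q.num : ℤ) : 𝓞 ℚ), ((q.den : ℤ) : 𝓞 ℚ), ?_, ?_, ?_, ?_⟩
  · exact_mod_cast q.den_ne_zero
  · refine Pool.Agent.Y120.house_le ℚ hT fun φ => ?_
    have h1 : φ (((q.num : ℤ) : 𝓞 ℚ) : ℚ) = ((q.num : ℤ) : ℂ) := by
      have : (((q.num : ℤ) : 𝓞 ℚ) : ℚ) = ((q.num : ℤ) : ℚ) := by simp
      rw [this, map_intCast]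
    rw [h1, Complex.norm_intCast]
    refine le_trans ?_ h
    rw [← Int.cast_abs, Int.abs_eq_natAbs]
    exact_mod_cast le_max_left _ _
  · refine Pool.Agent.Y120.house_le ℚ hT fun φ => ?_
    have h1 : φ (((q.den : ℤ) : 𝓞 ℚ) : ℚ) = ((q.den : ℕ) : ℂ) := by
      have : (((q.den : ℤ) : 𝓞 ℚ) : ℚ) = ((q.den : ℕ) : ℚ) := by simp
      rw [this, map_natCast]
    rw [h1, Complex.norm_natCast]
    refine le_trans ?_ h
    exact_mod_cast le_max_right _ _
  · have h1 : (((q.num : ℤ) : 𝓞 ℚ) : ℚ) = ((q.num : ℤ) : ℚ) := by simp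
    have h2 : (((q.den : ℤ) : 𝓞 ℚ) : ℚ) = ((q.den : ℕ) : ℚ) := by simp
    rw [h1, h2, Rat.num_div_den]

theorem finite_hq (T : ℝ) : {q : ℚ | (hq q : ℝ) ≤ T}.Finite :=
  (Pool.Agent.Y120.HtLe_fin ℚ T).subset fun _ hq => htLe_of_hq hq

/-- the values at `q` together with the constants -/
def vals {κ h : Type} (f : κ → ℂ → ℂ) (Y : ℚ → κ → ℂ) (c : h → ℂ) (q : ℚ) : κ ⊕ (κ ⊕ h) → ℂ :=
  Sum.elim (fun k => f k (q : ℂ)) (Sum.elim (Y q) c)

section

variable {κ h : Type} [Fintype κ] [DecidableEq κ] [Fintype h] [DecidableEq h] {f : κ → ℂ → ℂ} {Z : κ → ℂ} {c : h → ℂ}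
  {Y : ℚ → κ → ℂ}

theorem Relat.mono {σ : Type} {d : ℕ} {H H' : ℝ} (hH : H ≤ H') {v : σ → ℂ} (h : Relat d H v) : Relat d H' v := by
  obtain ⟨P, h1, h2, h3, h4⟩ := h
  exact ⟨P, h1, h2, fun s => (h3 s).trans hH, h4⟩

/-- the number of exceptions -/
theorem count (han : ∀ i, AnalyticOnNhd ℂ (f i) RH) (hind : ∀ t ∈ RH, LocInd f t)
    {C₁ : ℝ} {E D : ℕ} (hC₁ : 1 ≤ C₁)
    (hdata : ∀ q : ℚ, 0 < q → q ≠ 1 → HasData Z c (fun k => f k (q : ℂ)) (Y q) (C₁ * (hq q : ℝ) ^ E) D)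
    (hAI : AlgebraicIndependent ℚ (Sum.elim Z c)) (d A : ℕ) (a b ε : ℝ) (ha : 0 < a) (hε : 0 < ε) :
    ∃ C : ℝ, ∀ T : ℕ, 1 ≤ T →
      ({q : ℚ | a ≤ q ∧ (q : ℝ) ≤ b ∧ q ≠ 1 ∧ hq q ≤ T ∧ Relat d ((T : ℝ) ^ A) (vals f Y c q)}.ncard : ℝ) ≤
        C * (T : ℝ) ^ ε := by
  set cd := Fintype.card (κ ⊕ (κ ⊕ h)) with hcd
  set d' := cd * (d * (D + 1)) with hd'
  set K₀ : ℝ := ((d + 1) ^ cd : ℕ) * (3 * C₁) ^ (d * cd) with hK₀
  set e := A + E * (d * cd) with he
  set L : Set ℂ := Complex.ofReal '' Set.Icc a b with hL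
  have hLc : IsCompact L := isCompact_Icc.image Complex.continuous_ofReal
  have hLR : L ⊆ RH := by
    rintro _ ⟨x, hx, rfl⟩
    change 0 < (x : ℂ).re
    rw [Complex.ofReal_re]
    exact lt_of_lt_of_le ha hx.1
  obtain ⟨B, C, T₀, hC, hT₀, H⟩ := transfer (h := κ ⊕ h) f han hind 1 1 d' L hLc hLR ((e + 1 : ℕ) : ℝ) ε hε
  set T₁ : ℝ := max T₀ (max 1 K₀) with hT₁
  have hfin := finite_hq T₁
  refine ⟨C + ({q : ℚ | (hq q : ℝ) ≤ T₁}.ncard : ℝ), fun T hT => ?_⟩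
  have hT1 : (1 : ℝ) ≤ T := by exact_mod_cast hT
  have hTε : 1 ≤ (T : ℝ) ^ ε := Real.one_le_rpow hT1 hε.le
  have hTε0 : 0 ≤ (T : ℝ) ^ ε := by linarith
  set S := {q : ℚ | a ≤ q ∧ (q : ℝ) ≤ b ∧ q ≠ 1 ∧ hq q ≤ T ∧ Relat d ((T : ℝ) ^ A) (vals f Y c q)} with hS
  rcases le_total (T : ℝ) T₁ with hle | hge
  · have h1 : S ⊆ {q : ℚ | (hq q : ℝ) ≤ T₁} := by
      rintro q ⟨-, -, -, h4, -⟩
      exact le_trans (by exact_mod_cast h4) hle
    have h2 : (S.ncard : ℝ) ≤ ({q : ℚ | (hq q : ℝ) ≤ T₁}.ncard : ℝ) := by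
      exact_mod_cast Set.ncard_le_ncard h1 hfin
    have h3 : (0 : ℝ) ≤ ({q : ℚ | (hq q : ℝ) ≤ T₁}.ncard : ℝ) := Nat.cast_nonneg _
    nlinarith [mul_nonneg hC hTε0]
  · have hTT₀ : T₀ ≤ T := (le_max_left _ _).trans hge
    have hTK : K₀ ≤ T := ((le_max_right _ _).trans (le_max_right _ _)).trans hge
    obtain ⟨H1, H2⟩ := H ℚ (by rw [Module.finrank_self]) (algebraMap ℚ ℂ) (Sum.elim Z c) T hTT₀
    set Bad := {x : Fin 1 → ℚ | (∀ j, HtLe ℚ (T : ℝ) (x j) ∧ algebraMap ℚ ℂ (x j) ∈ L) ∧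
        ¬ GoodAt d' B ((T : ℝ) ^ ((e + 1 : ℕ) : ℝ)) T (algebraMap ℚ ℂ) (Sum.elim Z c)
          (fun z : Fin 1 × κ => f z.2 (algebraMap ℚ ℂ (x z.1)))} with hBad
    have hsub : S ⊆ (fun x : Fin 1 → ℚ => x 0) '' Bad := by
      rintro q ⟨ha', hb', hq1, hqT, P, hP0, hPd, hPc, hPv⟩
      refine ⟨fun _ => q, ⟨fun _ => ⟨htLe_of_hq (by exact_mod_cast hqT), ⟨(q : ℝ), ⟨ha', hb'⟩, ?_⟩⟩, fun hgood => ?_⟩, rfl⟩
      · simp
      have hq0 : (0 : ℚ) < q := by
        have : (0 : ℝ) < q := lt_of_lt_of_le ha ha'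
        exact_mod_cast this
      have hqT' : (hq q : ℝ) ≤ T := by exact_mod_cast hqT
      have hM : 1 ≤ C₁ * (hq q : ℝ) ^ E := by
        have : (1 : ℝ) ≤ (hq q : ℝ) ^ E := one_le_pow₀ (by exact_mod_cast hq_pos q)
        nlinarith
      obtain ⟨Q, N, hQ0, hQd, hQc, hQv⟩ := relmove hM (hdata q hq0 hq1) (H := (T : ℝ) ^ A) (by positivity) P hP0
        (fun i => (degreeOf_le_totalDegree P i).trans hPd) hPc
      apply hQ0
      have hQb : ∀ s, |((Q.coeff s : ℤ) : ℝ)| ≤ (T : ℝ) ^ (e + 1) := by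
        intro s
        refine (hQc s).trans ?_
        have e1 : (3 * (C₁ * (hq q : ℝ) ^ E)) ^ (d * cd) ≤ (3 * (C₁ * (T : ℝ) ^ E)) ^ (d * cd) := by
          refine pow_le_pow_left₀ (by positivity) ?_ _
          have : (hq q : ℝ) ^ E ≤ (T : ℝ) ^ E := pow_le_pow_left₀ (by positivity) hqT' _
          nlinarith
        calc ((d + 1) ^ cd : ℕ) * (T : ℝ) ^ A * (3 * (C₁ * (hq q : ℝ) ^ E)) ^ (d * cd)
            ≤ ((d + 1) ^ cd : ℕ) * (T : ℝ) ^ A * (3 * (C₁ * (T : ℝ) ^ E)) ^ (d * cd) :=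
              mul_le_mul_of_nonneg_left e1 (by positivity)
          _ = K₀ * (T : ℝ) ^ e := by
              rw [hK₀, he, pow_add, ← mul_assoc 3, mul_pow (3 * C₁), ← pow_mul]
              ring
          _ ≤ T * (T : ℝ) ^ e := mul_le_mul_of_nonneg_right hTK (by positivity)
          _ = (T : ℝ) ^ (e + 1) := by rw [pow_succ]; ring
      set g : κ ⊕ (κ ⊕ h) → (Fin 1 × κ) ⊕ (κ ⊕ h) := Sum.map (fun k => ((0 : Fin 1), k)) id with hg
      have hginj : Function.Injective g := by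
        rw [hg]
        exact Sum.map_injective.2 ⟨fun a b hab => (Prod.ext_iff.1 hab).2, Function.injective_id⟩
      set Q' : MvPolynomial ((Fin 1 × κ) ⊕ (κ ⊕ h)) (𝓞 ℚ) := map (Int.castRingHom (𝓞 ℚ)) (rename g Q) with hQ'
      have hev : ∀ w : Fin 1 × κ → ℂ, evc (algebraMap ℚ ℂ) (Sum.elim w (Sum.elim Z c)) Q' =
          aeval (Sum.elim (fun k => w (0, k)) (Sum.elim Z c)) Q := by
        intro w
        rw [evc, hQ', eval₂_map, eval₂_rename, aeval_def]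
        congr 1
        funext i
        rcases i with k | i
        · rfl
        · rfl
      have hzero : ∀ w : κ → ℂ, aeval (Sum.elim w (Sum.elim Z c)) Q = 0 := by
        intro w
        have h1 := hgood Q' ?_ ?_ (fun z => w z.2)
        · rw [hev, hev] at h1
          have h2 : aeval (Sum.elim (fun k => f k (q : ℂ)) (Sum.elim Z c)) Q = 0 := by
            rw [hQv]
            have : aeval (Sum.elim (fun k => f k (q : ℂ)) (Sum.elim (Y q) c)) P = 0 := hPv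
            rw [this, mul_zero]
          have h3 : aeval (Sum.elim (fun k => f k ((algebraMap ℚ ℂ) q)) (Sum.elim Z c)) Q = 0 := h2
          rw [h3, norm_zero, mul_zero] at h1
          exact norm_le_zero_iff.1 h1
        · intro i
          refine (degreeOf_le_totalDegree _ _).trans (le_trans ?_ hQd)
          rw [hQ']
          refine le_trans ?_ (totalDegree_rename_le g Q)
          exact Finset.sup_mono (support_map_subset _ _)
        · intro s φ
          rw [Real.rpow_natCast, hQ', coeff_map]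
          have h5 : φ (((Int.castRingHom (𝓞 ℚ)) ((rename g Q).coeff s) : 𝓞 ℚ) : ℚ) =
              (((rename g Q).coeff s : ℤ) : ℂ) := by
            have : (((Int.castRingHom (𝓞 ℚ)) ((rename g Q).coeff s) : 𝓞 ℚ) : ℚ) = (((rename g Q).coeff s : ℤ) : ℚ) := by
              simp
            rw [this, map_intCast]
          rw [h5, Complex.norm_intCast]
          by_cases hs : ∃ u, Finsupp.mapDomain g u = s
          · obtain ⟨u, rfl⟩ := hs
            rw [coeff_rename_mapDomain g hginj]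
            exact hQb u
          · rw [coeff_rename_eq_zero g Q s fun u hu => absurd ⟨u, hu⟩ hs]
            simp only [Int.cast_zero, abs_zero]
            positivity
      exact zero_of_forall hAI Q hzero
    have h1 : (S.ncard : ℝ) ≤ (Bad.ncard : ℝ) := by
      exact_mod_cast (Set.ncard_le_ncard hsub (H1.image _)).trans (Set.ncard_image_le H1)
    have h2 : (Bad.ncard : ℝ) ≤ C * (T : ℝ) ^ ε := by
      refine H2.trans (le_of_eq ?_)
      simp
    have h3 : (0 : ℝ) ≤ ({q : ℚ | (hq q : ℝ) ≤ T₁}.ncard : ℝ) := Nat.cast_nonneg _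
    nlinarith [mul_nonneg h3 hTε0]

end

end Pool.Agent.Helper8.EI
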