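import Pool.Agent.Helper8.EI.Crit

set_option autoImplicit false

/-!
# The criterion, both directions
-/

open MvPolynomial NumberField

namespace Pool.Agent.Helper8.EI

open Pool.Agent.Y124 (LocInd)

/-- an algebraic relation with integral coefficients -/
theorem int_relation {σ : Type} {u : σ → ℂ} (h : ¬ AlgebraicIndependent ℚ u) :
    ∃ p : MvPolynomial σ ℤ, p ≠ 0 ∧ aeval u p = 0 := by
  rw [algebraicIndependent_iff] at h
  push Not at h
  obtain ⟨p, hp, hp0⟩ := h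
  obtain ⟨N, hN⟩ := IsLocalization.exist_integer_multiples_of_finset (nonZeroDivisors ℤ) (p.support.image p.coeff)
  have hN0 : (N : ℤ) ≠ 0 := nonZeroDivisors.ne_zero N.2
  have hint : ∀ s, ∃ z : ℤ, (z : ℚ) = (N : ℤ) * p.coeff s := by
    intro s
    by_cases hs : s ∈ p.support
    · obtain ⟨z, hz⟩ := hN (p.coeff s) (Finset.mem_image_of_mem _ hs)
      refine ⟨z, ?_⟩
      rw [← eq_intCast (algebraMap ℤ ℚ) z, hz, zsmul_eq_mul]
    · refine ⟨0, ?_⟩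
      rw [MvPolynomial.notMem_support_iff.1 hs]
      simp
  choose z hz using hint
  set P : MvPolynomial σ ℤ := ∑ s ∈ p.support, monomial s (z s) with hP
  have hmap : map (Int.castRingHom ℚ) P = C ((N : ℤ) : ℚ) * p := by
    rw [hP, map_sum]
    conv_rhs => rw [p.as_sum, Finset.mul_sum]
    refine Finset.sum_congr rfl fun s _ => ?_
    rw [map_monomial, C_mul_monomial, ← hz s]
    rfl
  refine ⟨P, fun h0 => hp0 ?_, ?_⟩
  · rw [h0, map_zero] at hmap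
    have hC : (C ((N : ℤ) : ℚ) : MvPolynomial σ ℚ) ≠ 0 := by
      rw [Ne, C_eq_zero]
      exact_mod_cast hN0
    exact (mul_eq_zero.1 hmap.symm).resolve_left hC
  · have h1 : aeval u P = aeval u (map (Int.castRingHom ℚ) P) := by
      rw [aeval_def, aeval_def, eval₂_map]
      congr 1
    rw [h1, hmap, map_mul, hp, mul_zero]

theorem indep_of_nonint {σ : Type} {u : σ → ℂ} (h : ∀ p : MvPolynomial σ ℤ, aeval u p = 0 → p = 0) :
    AlgebraicIndependent ℚ u := by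
  by_contra hn
  obtain ⟨p, hp, hp0⟩ := int_relation hn
  exact hp (h p hp0)

section

variable {κ h : Type} [Fintype κ] [DecidableEq κ] [Fintype h] [DecidableEq h] {f : κ → ℂ → ℂ} {Z : κ → ℂ} {c : h → ℂ}
  {Y : ℚ → κ → ℂ}

/-- if the constants are dependent then all points are exceptional -/
theorem allrel {C₁ : ℝ} {E D : ℕ} (hC₁ : 1 ≤ C₁)
    (hdata : ∀ q : ℚ, 0 < q → q ≠ 1 → HasData Z c (fun k => f k (q : ℂ)) (Y q) (C₁ * (hq q : ℝ) ^ E) D)
    (hAI : ¬ AlgebraicIndependent ℚ (Sum.elim Z c)) :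
    ∃ d A : ℕ, ∀ q : ℚ, 0 < q → q ≠ 1 → Relat d ((hq q : ℝ) ^ A) (vals f Y c q) := by
  obtain ⟨p, hp0, hpv⟩ := int_relation hAI
  set P : MvPolynomial (κ ⊕ (κ ⊕ h)) ℤ := rename Sum.inr p with hP
  have hP0 : P ≠ 0 := by
    intro h0
    exact hp0 (rename_injective _ Sum.inr_injective (by rw [← hP, h0, map_zero]))
  set d := P.totalDegree with hd
  set H := L1 P with hH
  set cd := Fintype.card (κ ⊕ (κ ⊕ h)) with hcd
  set K₀ : ℝ := ((d + 1) ^ cd : ℕ) * H * (3 * C₁) ^ (d * cd) with hK₀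
  obtain ⟨n₀, hn₀⟩ := pow_unbounded_of_one_lt K₀ (one_lt_two (α := ℝ))
  refine ⟨cd * (d * (D + 1)), E * (d * cd) + n₀, fun q hq0 hq1 => ?_⟩
  have h2 : (2 : ℝ) ≤ hq q := by exact_mod_cast two_le_hq hq0 hq1
  have hM : 1 ≤ C₁ * (hq q : ℝ) ^ E := by
    have : (1 : ℝ) ≤ (hq q : ℝ) ^ E := one_le_pow₀ (by linarith)
    nlinarith
  obtain ⟨Q, N, hQ0, hQd, hQc, hQv⟩ := relmove hM (hdata q hq0 hq1).swap (H := H) (L1_nonneg _) P hP0
    (fun i => degreeOf_le_totalDegree P i) (coeff_le_L1 P)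
  refine ⟨Q, hQ0, hQd, fun s => (hQc s).trans ?_, ?_⟩
  · calc ((d + 1) ^ cd : ℕ) * H * (3 * (C₁ * (hq q : ℝ) ^ E)) ^ (d * cd) = K₀ * (hq q : ℝ) ^ (E * (d * cd)) := by
          rw [hK₀, ← mul_assoc 3, mul_pow (3 * C₁), ← pow_mul]
          ring
      _ ≤ 2 ^ n₀ * (hq q : ℝ) ^ (E * (d * cd)) := mul_le_mul_of_nonneg_right hn₀.le (by positivity)
      _ ≤ (hq q : ℝ) ^ n₀ * (hq q : ℝ) ^ (E * (d * cd)) :=
          mul_le_mul_of_nonneg_right (pow_le_pow_left₀ (by norm_num) h2 _) (by positivity)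
      _ = (hq q : ℝ) ^ (E * (d * cd) + n₀) := by rw [pow_add]; ring
  · have h3 : aeval (Sum.elim (fun k => f k (q : ℂ)) (Sum.elim Z c)) P = 0 := by
      rw [hP, aeval_rename]
      exact hpv
    rw [h3, mul_zero] at hQv
    exact hQv

/-- the points `1 + 1 / n` -/
theorem exists_unrelated {d A : ℕ} {C : ℝ}
    (hC : ∀ T : ℕ, 1 ≤ T →
      ({q : ℚ | (1 : ℝ) ≤ q ∧ (q : ℝ) ≤ 2 ∧ q ≠ 1 ∧ hq q ≤ T ∧ Relat d ((T : ℝ) ^ A) (vals f Y c q)}.ncard : ℝ) ≤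
        C * (T : ℝ) ^ (1 / 2 : ℝ)) :
    ∃ q : ℚ, 0 < q ∧ q ≠ 1 ∧ ¬ Relat d ((hq q : ℝ) ^ A) (vals f Y c q) := by
  by_contra hall
  push Not at hall
  obtain ⟨N, hN⟩ := exists_nat_gt (|C| + 1)
  set T : ℕ := (2 * N) ^ 2 with hT
  have hNpos : (0 : ℝ) < N := lt_of_le_of_lt (by positivity) hN
  have hN1 : 1 ≤ N := by
    have : (0 : ℕ) < N := by exact_mod_cast hNpos
    exact this
  have hT1 : 1 ≤ T := Nat.one_le_pow _ _ (by omega)
  have h1 := hC T hT1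
  set S := {q : ℚ | (1 : ℝ) ≤ q ∧ (q : ℝ) ≤ 2 ∧ q ≠ 1 ∧ hq q ≤ T ∧ Relat d ((T : ℝ) ^ A) (vals f Y c q)} with hS
  have hfin : S.Finite := (finite_hq T).subset fun q h => by
    have : hq q ≤ T := h.2.2.2.1
    change (hq q : ℝ) ≤ T
    exact_mod_cast this
  -- the points
  set g : ℕ → ℚ := fun n => 1 + 1 / ((n : ℚ) + 1) with hg
  have hginj : Function.Injective g := by
    intro a b hab
    simp only [hg] at hab
    have h2 : (1 : ℚ) / ((a : ℚ) + 1) = 1 / ((b : ℚ) + 1) := by linarith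
    have ha : ((a : ℚ) + 1) ≠ 0 := by positivity
    have hb : ((b : ℚ) + 1) ≠ 0 := by positivity
    rw [div_eq_div_iff ha hb] at h2
    have : (a : ℚ) = b := by linarith
    exact_mod_cast this
  have hgh : ∀ n : ℕ, hq (g n) ≤ n + 2 := by
    intro n
    have h2 : g n = ((n + 2 : ℤ) : ℚ) / ((n + 1 : ℤ) : ℚ) := by
      simp only [hg]
      have ha : ((n : ℚ) + 1) ≠ 0 := by positivity
      push_cast
      field_simp
      ring
    have h3 : (g n).num = (n + 2 : ℤ) ∧ ((g n).den : ℤ) = (n + 1 : ℤ) := by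
      rw [h2]
      have hcop : Nat.Coprime (n + 2 : ℤ).natAbs (n + 1 : ℤ).natAbs := by
        have e1 : (n + 2 : ℤ).natAbs = n + 2 := by omega
        have e2 : (n + 1 : ℤ).natAbs = n + 1 := by omega
        rw [e1, e2]
        have : Nat.Coprime (n + 1 + 1) (n + 1) := by
          rw [Nat.coprime_self_add_left]
          exact Nat.coprime_one_left _
        exact this
      exact ⟨Rat.num_div_eq_of_coprime (by positivity) hcop, Rat.den_div_eq_of_coprime (by positivity) hcop⟩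
    rw [hq]
    have e1 : (g n).num.natAbs = n + 2 := by
      rw [h3.1]
      omega
    have e2 : (g n).den = n + 1 := by
      have := h3.2
      omega
    rw [e1, e2]
    omega
  have hgS : ∀ n ∈ Finset.range (T - 1), g n ∈ S := by
    intro n hn
    have hn' := Finset.mem_range.1 hn
    have hpos : (0 : ℚ) < 1 / ((n : ℚ) + 1) := by positivity
    have hle : 1 / ((n : ℚ) + 1) ≤ 1 := by
      rw [div_le_one (by positivity)]
      have : (0 : ℚ) ≤ n := Nat.cast_nonneg n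
      linarith
    have h4 : (1 : ℚ) < g n := by
      simp only [hg]
      linarith
    have h5 : g n ≤ 2 := by
      simp only [hg]
      linarith
    have h6 : hq (g n) ≤ T := (hgh n).trans (by omega)
    refine ⟨by exact_mod_cast h4.le, by exact_mod_cast h5, h4.ne', h6, ?_⟩
    refine (hall (g n) (by linarith) h4.ne').mono ?_
    exact pow_le_pow_left₀ (Nat.cast_nonneg _) (by exact_mod_cast h6) _
  have hcard : T - 1 ≤ S.ncard := by
    have h2 : ((Finset.range (T - 1)).image g : Set ℚ) ⊆ S := by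
      intro x hx
      obtain ⟨n, hn, rfl⟩ := Finset.mem_image.1 (Finset.mem_coe.1 hx)
      exact hgS n hn
    have h3 := Set.ncard_le_ncard h2 hfin
    rw [Set.ncard_coe_finset, Finset.card_image_of_injective _ hginj, Finset.card_range] at h3
    exact h3
  have h2 : ((T : ℝ)) ^ (1 / 2 : ℝ) = 2 * N := by
    rw [hT]
    push_cast
    rw [← Real.sqrt_eq_rpow, Real.sqrt_sq (by positivity)]
  rw [h2] at h1
  have h3 : ((T : ℝ)) - 1 ≤ S.ncard := by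
    have : T ≤ S.ncard + 1 := by omega
    have h4 : (T : ℝ) ≤ S.ncard + 1 := by exact_mod_cast this
    linarith
  have h4 : (T : ℝ) = (2 * N) ^ 2 := by
    rw [hT]
    push_cast
    ring
  have h5 : C ≤ |C| := le_abs_self C
  have h6 : (1 : ℝ) ≤ N := by exact_mod_cast hN1
  have h7 : C * (2 * N) ≤ |C| * (2 * N) := mul_le_mul_of_nonneg_right h5 (by positivity)
  have h8 : |C| * (2 * N) ≤ (N - 1) * (2 * N) := mul_le_mul_of_nonneg_right (by linarith) (by positivity)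
  nlinarith

/-- the criterion -/
theorem crit (han : ∀ i, AnalyticOnNhd ℂ (f i) RH) (hind : ∀ t ∈ RH, LocInd f t)
    {C₁ : ℝ} {E D : ℕ} (hC₁ : 1 ≤ C₁)
    (hdata : ∀ q : ℚ, 0 < q → q ≠ 1 → HasData Z c (fun k => f k (q : ℂ)) (Y q) (C₁ * (hq q : ℝ) ^ E) D) :
    (AlgebraicIndependent ℚ (Sum.elim Z c) ↔
      ∀ d A : ℕ, ∃ q : ℚ, 0 < q ∧ q ≠ 1 ∧ ¬ Relat d ((hq q : ℝ) ^ A) (vals f Y c q)) ∧
    (AlgebraicIndependent ℚ (Sum.elim Z c) ↔
      ∀ (d A : ℕ) (a b ε : ℝ), 0 < a → 0 < ε → ∃ C : ℝ, ∀ T : ℕ, 1 ≤ T →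
      ({q : ℚ | a ≤ q ∧ (q : ℝ) ≤ b ∧ q ≠ 1 ∧ hq q ≤ T ∧ Relat d ((T : ℝ) ^ A) (vals f Y c q)}.ncard : ℝ) ≤
        C * (T : ℝ) ^ ε) := by
  have h1 : AlgebraicIndependent ℚ (Sum.elim Z c) → ∀ (d A : ℕ) (a b ε : ℝ), 0 < a → 0 < ε → ∃ C : ℝ, ∀ T : ℕ, 1 ≤ T →
      ({q : ℚ | a ≤ q ∧ (q : ℝ) ≤ b ∧ q ≠ 1 ∧ hq q ≤ T ∧ Relat d ((T : ℝ) ^ A) (vals f Y c q)}.ncard : ℝ) ≤
        C * (T : ℝ) ^ ε := fun hAI d A a b ε ha hε => count han hind hC₁ hdata hAI d A a b ε ha hε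
  have h2 : (∀ (d A : ℕ) (a b ε : ℝ), 0 < a → 0 < ε → ∃ C : ℝ, ∀ T : ℕ, 1 ≤ T →
      ({q : ℚ | a ≤ q ∧ (q : ℝ) ≤ b ∧ q ≠ 1 ∧ hq q ≤ T ∧ Relat d ((T : ℝ) ^ A) (vals f Y c q)}.ncard : ℝ) ≤
        C * (T : ℝ) ^ ε) → ∀ d A : ℕ, ∃ q : ℚ, 0 < q ∧ q ≠ 1 ∧ ¬ Relat d ((hq q : ℝ) ^ A) (vals f Y c q) := by
    intro h d A
    obtain ⟨C, hC⟩ := h d A 1 2 (1 / 2) one_pos (by norm_num)
    exact exists_unrelated hC
  have h3 : (∀ d A : ℕ, ∃ q : ℚ, 0 < q ∧ q ≠ 1 ∧ ¬ Relat d ((hq q : ℝ) ^ A) (vals f Y c q)) →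
      AlgebraicIndependent ℚ (Sum.elim Z c) := by
    intro h
    by_contra hAI
    obtain ⟨d, A, hall⟩ := allrel hC₁ hdata hAI
    obtain ⟨q, hq0, hq1, hq2⟩ := h d A
    exact hq2 (hall q hq0 hq1)
  exact ⟨⟨fun h => h2 (h1 h), h3⟩, ⟨h1, fun h => h3 (h2 h)⟩⟩

end

end Pool.Agent.Helper8.EI
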