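import Pool.Agent.Helper8.EI.Loc

set_option autoImplicit false

/-!
# The Lambert series of odd index
-/

open Complex Filter Topology Real MvPolynomial

namespace Pool.Agent.Helper8.EI

theorem half_mem {z : ℂ} (hz : z ∈ RH) : z / 2 ∈ RH := by
  have h : 0 < z.re := hz
  change 0 < (z / 2).re
  simpa using h

theorem two_mem {z : ℂ} (hz : z ∈ RH) : 2 * z ∈ RH := by
  have h : 0 < z.re := hz
  change 0 < (2 * z).re
  simpa using h

theorem four_mem {z : ℂ} (hz : z ∈ RH) : 4 * z ∈ RH := by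
  have h : 0 < z.re := hz
  change 0 < (4 * z).re
  simpa using h

theorem FF_an : AnalyticOnNhd ℂ FF RH := by
  have h := SS_an (k := 3) (by norm_num)
  have h1 : AnalyticOnNhd ℂ (fun z : ℂ => SS 3 (z / 2)) RH := fun z hz =>
    AnalyticAt.comp' (f := fun z : ℂ => z / 2) (x := z) (h _ (half_mem hz)) (by fun_prop)
  have h2 : AnalyticOnNhd ℂ (fun z : ℂ => SS 3 (2 * z)) RH := fun z hz =>
    AnalyticAt.comp' (f := fun z : ℂ => 2 * z) (x := z) (h _ (two_mem hz)) (by fun_prop)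
  have h4 : AnalyticOnNhd ℂ (fun z : ℂ => SS 3 (4 * z)) RH := fun z hz =>
    AnalyticAt.comp' (f := fun z : ℂ => 4 * z) (x := z) (h _ (four_mem hz)) (by fun_prop)
  exact ((h1.sub (analyticOnNhd_const.mul h)).add (analyticOnNhd_const.mul h2)).sub (analyticOnNhd_const.mul h4)

theorem FF_period (z : ℂ) (n : ℕ) : FF (z + ((2 * n : ℕ) : ℂ) * I) = FF z := by
  simp only [FF]
  have h1 : (z + ((2 * n : ℕ) : ℂ) * I) / 2 = z / 2 + (n : ℂ) * I := by
    push_cast
    ring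
  have h2 : 2 * (z + ((2 * n : ℕ) : ℂ) * I) = 2 * z + ((4 * n : ℕ) : ℂ) * I := by
    push_cast
    ring
  have h4 : 4 * (z + ((2 * n : ℕ) : ℂ) * I) = 4 * z + ((8 * n : ℕ) : ℂ) * I := by
    push_cast
    ring
  rw [h1, h2, h4, SS_period_nat, SS_period_nat, SS_period_nat, SS_period_nat]

theorem FF_small : ∃ C : ℝ, ∀ x : ℝ, 0 < x → ‖FF (x : ℂ)‖ ≤ C / x := by
  set Z := ∑' n : ℕ, 1 / ((n : ℝ) + 1) ^ 3 with hZ
  have hZ0 : 0 ≤ Z := tsum_nonneg fun n => by positivity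
  have key : ∀ (a x : ℝ), 0 < a → 0 < x → ∀ z : ℂ, z = ((a * x : ℝ) : ℂ) → ‖SS 3 z‖ ≤ Z / a / x := by
    intro a x ha hx z hz
    have hax : 0 < a * x := mul_pos ha hx
    have h1 := norm_SS_le (k := 3) (by norm_num) hax (z := z) (by rw [hz, Complex.ofReal_re])
    refine h1.trans ?_
    have h2 : a * x ≤ Real.exp (2 * π * (a * x)) - 1 := by
      have h3 := Real.add_one_le_exp (2 * π * (a * x))
      have h4 : a * x ≤ 2 * π * (a * x) := by
        nlinarith [Real.pi_gt_three]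
      linarith
    have h3 : 1 / (Real.exp (2 * π * (a * x)) - 1) ≤ 1 / (a * x) := one_div_le_one_div_of_le hax h2
    calc 1 / (Real.exp (2 * π * (a * x)) - 1) * Z ≤ 1 / (a * x) * Z := mul_le_mul_of_nonneg_right h3 hZ0
      _ = Z / a / x := by
        field_simp
  refine ⟨Z / (1 / 2) + 21 / 8 * Z + 21 / 16 * (Z / 2) + 1 / 8 * (Z / 4), fun x hx => ?_⟩
  have b1 := key (1 / 2) x (by norm_num) hx (x / 2) (by push_cast; ring)
  have b2 := key 1 x (by norm_num) hx x (by push_cast; ring)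
  have b3 := key 2 x (by norm_num) hx (2 * x) (by push_cast; ring)
  have b4 := key 4 x (by norm_num) hx (4 * x) (by push_cast; ring)
  have c2 : ‖(21 / 8 : ℂ) * SS 3 x‖ = 21 / 8 * ‖SS 3 (x : ℂ)‖ := by
    rw [norm_mul]
    norm_num
  have c3 : ‖(21 / 16 : ℂ) * SS 3 (2 * x)‖ = 21 / 16 * ‖SS 3 (2 * (x : ℂ))‖ := by
    rw [norm_mul]
    norm_num
  have c4 : ‖(1 / 8 : ℂ) * SS 3 (4 * x)‖ = 1 / 8 * ‖SS 3 (4 * (x : ℂ))‖ := by
    rw [norm_mul]
    norm_num
  have h : ‖FF (x : ℂ)‖ ≤ ‖SS 3 ((x : ℂ) / 2)‖ + ‖(21 / 8 : ℂ) * SS 3 x‖ + ‖(21 / 16 : ℂ) * SS 3 (2 * x)‖ +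
      ‖(1 / 8 : ℂ) * SS 3 (4 * x)‖ := by
    refine (norm_sub_le _ _).trans (add_le_add_left ((norm_add_le _ _).trans (add_le_add_left (norm_sub_le _ _) _)) _)
  rw [c2, c3, c4] at h
  refine h.trans ?_
  have : (Z / (1 / 2) + 21 / 8 * Z + 21 / 16 * (Z / 2) + 1 / 8 * (Z / 4)) / x =
      Z / (1 / 2) / x + 21 / 8 * (Z / 1 / x) + 21 / 16 * (Z / 2 / x) + 1 / 8 * (Z / 4 / x) := by
    field_simp
  rw [this]
  linarith

theorem FF_ind (p : MvPolynomial (Fin 1) ℂ) (hp : ∀ z ∈ RH, eval (fun _ => FF z) p = 0) : p = 0 := by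
  set q : Polynomial ℂ := aeval (fun _ : Fin 1 => (Polynomial.X : Polynomial ℂ)) p with hq
  have hqe : ∀ t : ℂ, q.eval t = eval (fun _ => t) p := by
    intro t
    have h : (Polynomial.aeval t).comp (aeval (fun _ : Fin 1 => (Polynomial.X : Polynomial ℂ)) :
        MvPolynomial (Fin 1) ℂ →ₐ[ℂ] Polynomial ℂ) = (aeval (fun _ => t) : MvPolynomial (Fin 1) ℂ →ₐ[ℂ] ℂ) := by
      apply MvPolynomial.algHom_ext
      intro i
      simp
    have h2 := DFunLike.congr_fun h p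
    rw [AlgHom.comp_apply, ← hq] at h2
    rw [← Polynomial.coe_aeval_eq_eval]
    exact h2
  by_contra hne
  have hq0 : q ≠ 0 := by
    intro h0
    apply hne
    refine MvPolynomial.funext fun s => ?_
    have : s = fun _ => s 0 := by
      funext i
      rw [Subsingleton.elim i 0]
    rw [this, ← hqe, h0, Polynomial.eval_zero, map_zero]
  have hfin : {t : ℂ | q.IsRoot t}.Finite := Polynomial.finite_setOfPred_isRoot hq0
  have hmap : Set.MapsTo FF RH {t : ℂ | q.IsRoot t} := by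
    intro z hz
    change q.eval (FF z) = 0
    rw [hqe]
    exact hp z hz
  obtain ⟨c, hc, hFc⟩ := preconn_RH.eqOn_const_of_mapsTo hfin.isDiscrete FF_an.continuousOn hmap
    ⟨FF 1, hmap one_mem_RH⟩
  have hx : ∀ x : ℝ, 0 < x → FF (x : ℂ) = c := by
    intro x hx
    exact hFc (show (x : ℂ) ∈ RH by change 0 < (x : ℂ).re; simpa using hx)
  obtain ⟨C, hC⟩ := FF_small
  have hc0 : c = 0 := by
    by_contra hcn
    have hpos : 0 < ‖c‖ := norm_pos_iff.2 hcn
    have h1 := hC ((|C| + 1) / ‖c‖) (by positivity)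
    rw [hx _ (by positivity), le_div_iff₀ (by positivity), mul_div_cancel₀ _ hpos.ne'] at h1
    have := le_abs_self C
    linarith
  have h1 := FF_eq (z := 1) (by simp)
  have h2 : FF 1 = 0 := by
    have := hx 1 one_pos
    rw [hc0] at this
    simpa using this
  have h3 : FF (1 / (2 * 1)) = 0 := by
    have := hx (1 / 2) (by norm_num)
    rw [hc0] at this
    rw [← this]
    norm_num
  rw [h2, h3] at h1
  have h4 := ZZ_ne (k := 3) (by norm_num)
  apply h4
  have h5 : (7 / 32 * (1 - 2 * 1 ^ 2) : ℂ) * ZZ 3 = 0 := by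
    rw [← h1]
    ring
  rcases mul_eq_zero.1 h5 with h | h
  · norm_num at h
  · exact h

theorem locInd_FF {t0 : ℂ} (ht0 : t0 ∈ RH) :
    Pool.Agent.Y124.LocInd (𝕜 := ℂ) (fun (_ : Fin 1) (z : ℂ) => FF z) t0 :=
  locInd_of_periodic _ (fun _ => FF_an) 2 two_ne_zero (fun _ z n => FF_period z n) (fun p hp => FF_ind p hp) ht0

/-! ### the series over odd numbers -/

/-- one term -/
noncomputable def tt (n : ℕ) (z : ℂ) : ℂ := 1 / ((2 * (n : ℂ) + 1) ^ 3 * (Complex.exp (2 * π * (2 * n + 1) * z) - 1))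

theorem summable_tt {z : ℂ} (hz : z ∈ RH) : Summable fun n => tt n z := by
  have h := (summable_SS (k := 3) (by norm_num) hz).comp_injective (i := fun n : ℕ => 2 * n)
    (fun a b h => by simpa using h)
  refine h.congr fun n => ?_
  simp only [Function.comp, tt]
  push_cast
  rfl

theorem SS_split {z : ℂ} (hz : z ∈ RH) : ∑' n, tt n z = SS 3 z - 1 / 8 * SS 3 (2 * z) := by
  have hs := summable_SS (k := 3) (by norm_num) hz
  have h1 : Summable fun n : ℕ => (fun n : ℕ => 1 / (((n : ℂ) + 1) ^ 3 * (Complex.exp (2 * π * (n + 1) * z) - 1))) (2 * n) :=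
    hs.comp_injective (i := fun n : ℕ => 2 * n) (fun a b h => by simpa using h)
  have h2 : Summable fun n : ℕ =>
      (fun n : ℕ => 1 / (((n : ℂ) + 1) ^ 3 * (Complex.exp (2 * π * (n + 1) * z) - 1))) (2 * n + 1) :=
    hs.comp_injective (i := fun n : ℕ => 2 * n + 1) (fun a b h => by simpa using h)
  have h := tsum_even_add_odd
    (f := fun n : ℕ => 1 / (((n : ℂ) + 1) ^ 3 * (Complex.exp (2 * π * (n + 1) * z) - 1))) h1 h2
  have h3 : ∑' n : ℕ, (fun n : ℕ => 1 / (((n : ℂ) + 1) ^ 3 * (Complex.exp (2 * π * (n + 1) * z) - 1))) (2 * n) =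
      ∑' n, tt n z := by
    refine tsum_congr fun n => ?_
    simp only [tt]
    push_cast
    rfl
  have h4 : ∑' n : ℕ, (fun n : ℕ => 1 / (((n : ℂ) + 1) ^ 3 * (Complex.exp (2 * π * (n + 1) * z) - 1))) (2 * n + 1) =
      1 / 8 * SS 3 (2 * z) := by
    rw [SS, ← tsum_mul_left]
    refine tsum_congr fun n => ?_
    simp only
    rw [one_div_mul_one_div]
    congr 1
    push_cast
    rw [show (2 * π * (2 * (n : ℂ) + 1 + 1) * z : ℂ) = 2 * π * (n + 1) * (2 * z) by ring]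
    ring
  rw [h3, h4] at h
  rw [SS, ← h]
  ring

theorem tt_id {z : ℂ} (hz : z ∈ RH) (n : ℕ) :
    1 / (2 * (n : ℂ) + 1) ^ 3 * (1 / (Complex.exp (π * (2 * n + 1) * z) + 1) -
      1 / 2 * (1 / (Complex.exp (2 * π * (2 * n + 1) * z) + 1))) =
    tt n (z / 2) - 5 / 2 * tt n z + tt n (2 * z) := by
  have hN : (2 * (n : ℂ) + 1) ≠ 0 := by exact_mod_cast Nat.succ_ne_zero (2 * n)
  have hne : ∀ z : ℂ, z ∈ RH → Complex.exp (2 * π * (2 * n + 1) * z) - 1 ≠ 0 := by
    intro z hz h0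
    have hz' : 0 < z.re := hz
    have h1 := den_lower hz' le_rfl (2 * n)
    push_cast at h1
    rw [h0, norm_zero] at h1
    linarith [den_pos hz']
  simp only [tt]
  set E := Complex.exp (π * (2 * n + 1) * z) with hE
  have e1 : Complex.exp (2 * π * (2 * n + 1) * (z / 2)) = E := by
    rw [hE]
    congr 1
    ring
  have e2 : Complex.exp (2 * π * (2 * n + 1) * z) = E ^ 2 := by
    rw [hE, ← Complex.exp_nat_mul]
    congr 1
    push_cast
    ring
  have e4 : Complex.exp (2 * π * (2 * n + 1) * (2 * z)) = E ^ 4 := by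
    rw [hE, ← Complex.exp_nat_mul]
    congr 1
    push_cast
    ring
  have n1 := hne _ (half_mem hz)
  have n2 := hne _ hz
  have n4 := hne _ (two_mem hz)
  rw [e1] at n1
  rw [e2] at n2
  rw [e4] at n4
  rw [e1, e2, e4]
  have p1 : E + 1 ≠ 0 := by
    intro h
    apply n2
    have : E ^ 2 - 1 = (E - 1) * (E + 1) := by ring
    rw [this, h, mul_zero]
  have p2 : E ^ 2 + 1 ≠ 0 := by
    intro h
    apply n4
    have : E ^ 4 - 1 = (E ^ 2 - 1) * (E ^ 2 + 1) := by ring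
    rw [this, h, mul_zero]
  have q2 : E ^ 2 - 1 = (E - 1) * (E + 1) := by ring
  have q4 : E ^ 4 - 1 = (E - 1) * (E + 1) * (E ^ 2 + 1) := by ring
  rw [q4, q2]
  field_simp
  ring

theorem FF_odd {z : ℂ} (hz : z ∈ RH) :
    FF z = ∑' n : ℕ, 1 / (2 * (n : ℂ) + 1) ^ 3 * (1 / (Complex.exp (π * (2 * n + 1) * z) + 1) -
      1 / 2 * (1 / (Complex.exp (2 * π * (2 * n + 1) * z) + 1))) := by
  rw [tsum_congr (tt_id hz)]
  have h1 := summable_tt (half_mem hz)
  have h2 := summable_tt hz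
  have h3 := summable_tt (two_mem hz)
  rw [(h1.sub (h2.mul_left _)).tsum_add h3, h1.tsum_sub (h2.mul_left _), tsum_mul_left, SS_split (half_mem hz),
    SS_split hz, SS_split (two_mem hz), FF]
  rw [show 2 * (z / 2) = z by ring, show 2 * (2 * z) = 4 * z by ring]
  ring

end Pool.Agent.Helper8.EI
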