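import Pool.Agent.Helper8.EI.Crit2
import Pool.Agent.Helper8.EI.Odd

set_option autoImplicit false

/-!
# The criterion for `ζ(3)`
-/

open MvPolynomial NumberField

namespace Pool.Agent.Helper8.EI

theorem two_sq_ne {a b : ℤ} (ha : a ≠ 0) : b ^ 2 ≠ 2 * a ^ 2 := by
  intro h
  have h1 : ((b : ℝ) / a) ^ 2 = 2 := by
    have ha' : (a : ℝ) ≠ 0 := by exact_mod_cast ha
    rw [div_pow, div_eq_iff (pow_ne_zero _ ha')]
    exact_mod_cast h
  have h2 : Real.sqrt 2 = |(b : ℝ) / a| := by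
    rw [← h1, Real.sqrt_sq_eq_abs]
  apply irrational_sqrt_two
  refine ⟨|(b : ℚ) / a|, ?_⟩
  rw [h2]
  push_cast
  rfl

theorem hq_num (q : ℚ) : |(q.num : ℝ)| ≤ hq q := by
  rw [← Int.cast_abs, Int.abs_eq_natAbs]
  exact_mod_cast le_max_left _ _

theorem hq_den (q : ℚ) : (q.den : ℝ) ≤ hq q := by
  exact_mod_cast le_max_right _ _

/-- the second value -/
noncomputable def YF (q : ℚ) (_ : Fin 1) : ℂ := FF (1 / (2 * (q : ℂ)))

theorem FF_data {h : Type} (c : h → ℂ) {q : ℚ} (h0 : 0 < q) :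
    HasData (fun _ : Fin 1 => ZZ 3) c (fun _ => FF (q : ℂ)) (YF q) (64 * (hq q : ℝ) ^ 2) 0 := by
  have hnum : 0 < q.num := Rat.num_pos.2 h0
  have hden : 0 < q.den := q.den_pos
  have hH1 := hq_num q
  have hH2 := hq_den q
  have hH0 : (0 : ℝ) ≤ hq q := Nat.cast_nonneg _
  have hd0 : (0 : ℝ) ≤ q.den := Nat.cast_nonneg _
  have ha2 : ((q.num : ℤ) : ℝ) ^ 2 ≤ (hq q : ℝ) ^ 2 := by
    rw [← sq_abs]
    exact pow_le_pow_left₀ (abs_nonneg _) hH1 2
  have hb2 : ((q.den : ℕ) : ℝ) ^ 2 ≤ (hq q : ℝ) ^ 2 := pow_le_pow_left₀ hd0 hH2 2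
  have ha20 : 0 ≤ ((q.num : ℤ) : ℝ) ^ 2 := sq_nonneg _
  have hb20 : 0 ≤ ((q.den : ℕ) : ℝ) ^ 2 := sq_nonneg _
  refine ⟨fun _ => 32 * (q.den : ℤ) ^ 2, fun _ => -7 * ((q.den : ℤ) ^ 2 - 2 * q.num ^ 2), fun _ => 64 * q.num ^ 2,
    fun _ => 0, fun _ => ⟨?_, ?_, ?_, ?_, ?_, ?_, ?_, ?_⟩⟩
  · exact mul_ne_zero (by norm_num) (pow_ne_zero _ hnum.ne')
  · exact mul_ne_zero (by norm_num) (sub_ne_zero.2 (two_sq_ne hnum.ne'))
  · push_cast
    rw [abs_of_nonneg (by positivity)]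
    linarith
  · push_cast
    rw [abs_le]
    constructor <;> linarith
  · push_cast
    rw [abs_of_nonneg (by positivity)]
    linarith
  · rw [L1_zero]
    positivity
  · simp
  · have hz : 0 < ((q : ℂ)).re := by
      have : ((q : ℂ)).re = (q : ℝ) := by simp
      rw [this]
      exact_mod_cast h0
    have h := FF_eq hz
    have hqd : (q : ℂ) = (q.num : ℂ) / (q.den : ℂ) := by
      conv_lhs => rw [← Rat.num_div_den q]
      push_cast
      rfl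
    have hb : (q.den : ℂ) ≠ 0 := by exact_mod_cast hden.ne'
    have hsq : (q : ℂ) ^ 2 * (q.den : ℂ) ^ 2 = (q.num : ℂ) ^ 2 := by
      rw [hqd]
      field_simp
    rw [map_zero]
    simp only [YF]
    push_cast
    generalize FF (1 / (2 * (q : ℂ))) = y at *
    linear_combination (-32 * (q.den : ℂ) ^ 2) * h + (-64 * y + 14 * ZZ 3) * hsq

/-- the criterion for `ζ(3)` and further constants -/
theorem crit_zeta3 {g : ℕ} (ξ : Fin g → ℂ) :
    (AlgebraicIndependent ℚ (Sum.elim (fun _ : Fin 1 => ZZ 3) ξ) ↔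
      ∀ d A : ℕ, ∃ q : ℚ, 0 < q ∧ q ≠ 1 ∧ ¬ Relat d ((hq q : ℝ) ^ A) (vals (fun (_ : Fin 1) z => FF z) YF ξ q)) ∧
    (AlgebraicIndependent ℚ (Sum.elim (fun _ : Fin 1 => ZZ 3) ξ) ↔
      ∀ (d A : ℕ) (a b ε : ℝ), 0 < a → 0 < ε → ∃ C : ℝ, ∀ T : ℕ, 1 ≤ T →
      ({q : ℚ | a ≤ q ∧ (q : ℝ) ≤ b ∧ q ≠ 1 ∧ hq q ≤ T ∧
        Relat d ((T : ℝ) ^ A) (vals (fun (_ : Fin 1) z => FF z) YF ξ q)}.ncard : ℝ) ≤ C * (T : ℝ) ^ ε) :=
  crit (fun _ => FF_an) (fun _ ht => locInd_FF ht) (C₁ := 64) (E := 2) (D := 0) (by norm_num)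
    fun _ h0 _ => FF_data ξ h0

theorem Relat_equiv {σ τ : Type} (e : σ ≃ τ) (d : ℕ) (H : ℝ) (v : τ → ℂ) : Relat d H (v ∘ e) ↔ Relat d H v := by
  have key : ∀ {σ τ : Type} (e : σ ≃ τ) (v : τ → ℂ), Relat d H (v ∘ e) → Relat d H v := by
    rintro σ τ e v ⟨P, h1, h2, h3, h4⟩
    refine ⟨rename e P, ?_, ?_, ?_, ?_⟩
    · intro h0
      exact h1 (rename_injective e e.injective (by rw [h0, map_zero]))
    · exact (totalDegree_rename_le _ _).trans h2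
    · intro s
      have : s = Finsupp.mapDomain e (Finsupp.mapDomain e.symm s) := by
        rw [← Finsupp.mapDomain_comp]
        simp [Finsupp.mapDomain_id]
      rw [this, coeff_rename_mapDomain e e.injective]
      exact h3 _
    · rw [aeval_rename]
      exact h4
  refine ⟨key e v, fun h => ?_⟩
  refine key e.symm (v ∘ e) ?_
  have : (v ∘ e) ∘ e.symm = v := by
    funext t
    simp
  rw [this]
  exact h

theorem ZZ_zeta {k : ℕ} (hk : 2 ≤ k) : ZZ k = riemannZeta k := by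
  rw [zeta_nat_eq_tsum_of_gt_one (by omega), ZZ]
  have h := (Complex.summable_one_div_nat_cpow (p := k)).2 (by simp; omega)
  have h1 : Summable fun n : ℕ => 1 / (n : ℂ) ^ k := by
    refine h.congr fun n => ?_
    rw [Complex.cpow_natCast]
  rw [h1.tsum_eq_zero_add]
  have h2 : (1 : ℂ) / ((0 : ℕ) : ℂ) ^ k = 0 := by
    rw [Nat.cast_zero, zero_pow (by omega), div_zero]
  rw [h2, zero_add]
  exact tsum_congr fun n => by push_cast; rfl

end Pool.Agent.Helper8.EI
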