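import Pool.Agent.Helper8.EI.Coth

set_option autoImplicit false

/-!
# Lambert series: analyticity, periodicity and algebraic independence
-/

open Complex Filter Topology Real MvPolynomial

namespace Pool.Agent.Helper8.EI

/-- the right half plane -/
def RH : Set ℂ := {z | 0 < z.re}

theorem isOpen_RH : IsOpen RH := isOpen_lt continuous_const Complex.continuous_re

theorem convex_RH : Convex ℝ RH := convex_halfSpace_re_gt 0

theorem preconn_RH : IsPreconnected RH := convex_RH.isPreconnected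

theorem re_mul (n : ℕ) (z : ℂ) : (2 * π * ((n : ℂ) + 1) * z).re = 2 * π * (n + 1) * z.re := by
  have : (2 * π * ((n : ℂ) + 1) * z : ℂ) = ((2 * π * (n + 1) : ℝ) : ℂ) * z := by push_cast; ring
  rw [this, Complex.re_ofReal_mul]

theorem den_lower {δ : ℝ} (hδ : 0 < δ) {z : ℂ} (hz : δ ≤ z.re) (n : ℕ) :
    Real.exp (2 * π * δ) - 1 ≤ ‖Complex.exp (2 * π * (n + 1) * z) - 1‖ := by
  refine le_trans ?_ nexp_sub_one
  rw [re_mul]
  have h1 : 2 * π * δ ≤ 2 * π * (n + 1) * z.re := by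
    have hn : (0 : ℝ) ≤ n := Nat.cast_nonneg n
    have h2 : δ ≤ (n + 1) * z.re := by nlinarith
    nlinarith [Real.pi_pos]
  have := Real.exp_le_exp.2 h1
  linarith

theorem den_pos {δ : ℝ} (hδ : 0 < δ) : 0 < Real.exp (2 * π * δ) - 1 := by
  have : 0 < 2 * π * δ := by positivity
  have h4 := Real.add_one_lt_exp this.ne'
  linarith

theorem term_bound (k : ℕ) {δ : ℝ} (hδ : 0 < δ) {z : ℂ} (hz : δ ≤ z.re) (n : ℕ) :
    ‖1 / (((n : ℂ) + 1) ^ k * (Complex.exp (2 * π * (n + 1) * z) - 1))‖ ≤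
      1 / (Real.exp (2 * π * δ) - 1) * (1 / ((n : ℝ) + 1) ^ k) := by
  have h1 := den_lower hδ hz n
  have h2 := den_pos hδ
  rw [norm_div, norm_one, norm_mul, norm_pow, norm_succ, one_div_mul_one_div, mul_comm (Real.exp (2 * π * δ) - 1)]
  gcongr

theorem summable_SS {k : ℕ} (hk : 2 ≤ k) {z : ℂ} (hz : z ∈ RH) :
    Summable fun n : ℕ => 1 / (((n : ℂ) + 1) ^ k * (Complex.exp (2 * π * (n + 1) * z) - 1)) :=
  Summable.of_norm_bounded ((summable_inv hk).mul_left _) fun n => term_bound k hz le_rfl n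

theorem norm_SS_le {k : ℕ} (hk : 2 ≤ k) {δ : ℝ} (hδ : 0 < δ) {z : ℂ} (hz : δ ≤ z.re) :
    ‖SS k z‖ ≤ 1 / (Real.exp (2 * π * δ) - 1) * ∑' n : ℕ, 1 / ((n : ℝ) + 1) ^ k := by
  rw [← tsum_mul_left]
  exact tsum_of_norm_bounded ((summable_inv hk).mul_left _).hasSum fun n => term_bound k hδ hz n

theorem SS_diff {k : ℕ} (hk : 2 ≤ k) : DifferentiableOn ℂ (SS k) RH := by
  intro z0 hz0
  have hz0' : 0 < z0.re := hz0
  set δ := z0.re / 2 with hδ
  have hδ0 : 0 < δ := by positivity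
  have hU : IsOpen {z : ℂ | δ < z.re} := isOpen_lt continuous_const Complex.continuous_re
  have h := differentiableOn_tsum_of_summable_norm (U := {z : ℂ | δ < z.re})
    (F := fun (n : ℕ) (z : ℂ) => 1 / (((n : ℂ) + 1) ^ k * (Complex.exp (2 * π * (n + 1) * z) - 1)))
    ((summable_inv hk).mul_left (1 / (Real.exp (2 * π * δ) - 1))) ?_ hU fun n z hz => term_bound k hδ0 (le_of_lt hz) n
  · have h1 : z0 ∈ {z : ℂ | δ < z.re} := by
      change δ < z0.re
      rw [hδ]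
      linarith
    exact (h.differentiableAt (hU.mem_nhds h1)).differentiableWithinAt
  · intro n z hz
    have hz' : 0 < z.re := lt_trans hδ0 hz
    have hne : Complex.exp (2 * π * (n + 1) * z) - 1 ≠ 0 := by
      intro h0
      have h1 := den_lower hδ0 (le_of_lt hz) n
      rw [h0, norm_zero] at h1
      linarith [den_pos hδ0]
    have hn0 : ((n : ℂ) + 1) ^ k ≠ 0 := pow_ne_zero _ (by exact_mod_cast Nat.succ_ne_zero n)
    refine DifferentiableAt.differentiableWithinAt ?_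
    refine DifferentiableAt.div (by fun_prop) (by fun_prop) (mul_ne_zero hn0 hne)

theorem SS_an {k : ℕ} (hk : 2 ≤ k) : AnalyticOnNhd ℂ (SS k) RH := (SS_diff hk).analyticOnNhd isOpen_RH

theorem SS_period (k : ℕ) (z : ℂ) : SS k (z + I) = SS k z := by
  refine tsum_congr fun n => ?_
  congr 3
  rw [mul_add, Complex.exp_add, show (2 * π * ((n : ℂ) + 1) * I : ℂ) = ((n + 1 : ℕ) : ℂ) * (2 * π * I) by push_cast; ring,
    Complex.exp_nat_mul_two_pi_mul_I, mul_one]

theorem SS_period_nat (k : ℕ) (z : ℂ) (n : ℕ) : SS k (z + n * I) = SS k z := by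
  induction n with
  | zero => simp
  | succ n ih =>
    rw [show z + ((n + 1 : ℕ) : ℂ) * I = (z + n * I) + I by push_cast; ring, SS_period, ih]

/-- functions which are Laurent polynomials away from zero -/
def LPf : Subalgebra ℂ (ℂ → ℂ) where
  carrier := {h | ∃ (N : ℕ) (q : Polynomial ℂ), ∀ w : ℂ, w ≠ 0 → w ^ N * h w = q.eval w}
  mul_mem' := by
    rintro a b ⟨N, q, h⟩ ⟨N', q', h'⟩
    refine ⟨N + N', q * q', fun w hw => ?_⟩
    rw [Polynomial.eval_mul, ← h w hw, ← h' w hw, Pi.mul_apply]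
    ring
  add_mem' := by
    rintro a b ⟨N, q, h⟩ ⟨N', q', h'⟩
    refine ⟨N + N', Polynomial.X ^ N' * q + Polynomial.X ^ N * q', fun w hw => ?_⟩
    rw [Polynomial.eval_add, Polynomial.eval_mul, Polynomial.eval_mul, Polynomial.eval_pow, Polynomial.eval_pow,
      Polynomial.eval_X, ← h w hw, ← h' w hw, Pi.add_apply]
    ring
  algebraMap_mem' := by
    intro c
    exact ⟨0, Polynomial.C c, fun w _ => by simp⟩

theorem LPf_inv : (fun w : ℂ => 1 / w) ∈ LPf := ⟨1, 1, fun w hw => by simp [hw]⟩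

theorem LPf_id : (fun w : ℂ => w) ∈ LPf := ⟨0, Polynomial.X, fun w _ => by simp⟩

theorem LPf_const (c : ℂ) : (fun _ : ℂ => c) ∈ LPf := LPf.algebraMap_mem c

theorem LPf_zero {h : ℂ → ℂ} (hh : h ∈ LPf) {S : Set ℂ} (hS : S.Infinite) (h0 : ∀ w ∈ S, w ≠ 0 ∧ h w = 0) {w : ℂ}
    (hw : w ≠ 0) : h w = 0 := by
  obtain ⟨N, q, hq⟩ := hh
  have hq0 : q = 0 := by
    refine Polynomial.eq_zero_of_infinite_isRoot q (hS.mono fun v hv => ?_)
    obtain ⟨h1, h2⟩ := h0 v hv
    change q.eval v = 0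
    rw [← hq v h1, h2, mul_zero]
  have := hq w hw
  rw [hq0, Polynomial.eval_zero] at this
  exact (mul_eq_zero.1 this).resolve_left (pow_ne_zero _ hw)

/-- the right side of Ramanujan's relation -/
noncomputable def rho (r : ℕ) (z : ℂ) : ℂ :=
  ZZ (2 * r + 2) / (2 * π) * (1 / z - (-1) ^ r * z ^ (2 * r + 1)) +
    1 / π * ∑ j ∈ Finset.range r, (-1) ^ j * z ^ (2 * j + 1) * (ZZ (2 * (r - j)) * ZZ (2 * (j + 1)))

theorem rho_mem (r : ℕ) : rho r ∈ LPf := by
  have h1 : rho r = (fun _ : ℂ => ZZ (2 * r + 2) / (2 * π)) * ((fun w : ℂ => 1 / w) -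
      (fun _ : ℂ => ((-1) ^ r : ℂ)) * (fun w : ℂ => w) ^ (2 * r + 1)) +
      (fun _ : ℂ => (1 / π : ℂ)) * ∑ j ∈ Finset.range r, (fun _ : ℂ => ((-1) ^ j : ℂ)) * (fun w : ℂ => w) ^ (2 * j + 1) *
        (fun _ : ℂ => ZZ (2 * (r - j)) * ZZ (2 * (j + 1))) := by
    funext z
    simp only [rho, Pi.add_apply, Pi.mul_apply, Pi.sub_apply, Pi.pow_apply, Finset.sum_apply]
  rw [h1]
  refine LPf.add_mem (LPf.mul_mem (LPf_const _) (LPf.sub_mem LPf_inv (LPf.mul_mem (LPf_const _)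
    (LPf.pow_mem LPf_id _)))) (LPf.mul_mem (LPf_const _) (LPf.sum_mem fun j _ => LPf.mul_mem (LPf.mul_mem (LPf_const _)
    (LPf.pow_mem LPf_id _)) (LPf_const _)))

/-- the family of Lambert series of weights `3, 5, …, 2 g + 1` -/
noncomputable def SV (g : ℕ) (z : ℂ) (i : Fin g) : ℂ := SS (2 * ((i : ℕ) + 1) + 1) z

/-- the affine map -/
noncomputable def phi {g : ℕ} (s : Fin g → ℂ) (w : ℂ) (i : Fin g) : ℂ :=
  (-1) ^ ((i : ℕ) + 1) * (1 / w) ^ (2 * ((i : ℕ) + 1)) *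
    (s i + 1 / 2 * ZZ (2 * ((i : ℕ) + 1) + 1) - rho ((i : ℕ) + 1) w) - 1 / 2 * ZZ (2 * ((i : ℕ) + 1) + 1)

theorem SV_inv {g : ℕ} {z : ℂ} (hz : z ∈ RH) : SV g (1 / z) = phi (SV g z) z := by
  funext i
  have hz0 : z ≠ 0 := by
    rintro rfl
    simp [RH] at hz
  have h := ram (r := (i : ℕ) + 1) (by omega) hz
  simp only [SV, phi]
  set r := (i : ℕ) + 1
  have h1 : rho r z = SS (2 * r + 1) z + 1 / 2 * ZZ (2 * r + 1) -
      (-1) ^ r * z ^ (2 * r) * (SS (2 * r + 1) (1 / z) + 1 / 2 * ZZ (2 * r + 1)) := by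
    rw [h, rho]
  rw [h1]
  have h2 : ((-1 : ℂ) ^ r) * (-1) ^ r = 1 := by
    rw [← pow_add, Even.neg_one_pow ⟨r, rfl⟩]
  have h3 : (1 / z) ^ (2 * r) * z ^ (2 * r) = 1 := by
    rw [← mul_pow, one_div_mul_cancel hz0, one_pow]
  linear_combination (-(SS (2 * r + 1) (1 / z) + 1 / 2 * ZZ (2 * r + 1))) * h2 -
    (SS (2 * r + 1) (1 / z) + 1 / 2 * ZZ (2 * r + 1)) * ((-1) ^ r * (-1) ^ r) * h3

theorem phi_mem {g : ℕ} (s : Fin g → ℂ) (i : Fin g) : (fun w => phi s w i) ∈ LPf := by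
  have h1 : (fun w => phi s w i) = (fun _ : ℂ => ((-1) ^ ((i : ℕ) + 1) : ℂ)) * (fun w : ℂ => 1 / w) ^ (2 * ((i : ℕ) + 1)) *
      ((fun _ : ℂ => s i + 1 / 2 * ZZ (2 * ((i : ℕ) + 1) + 1)) - rho ((i : ℕ) + 1)) -
      (fun _ : ℂ => 1 / 2 * ZZ (2 * ((i : ℕ) + 1) + 1)) := by
    funext w
    simp only [phi, Pi.mul_apply, Pi.sub_apply, Pi.pow_apply]
  rw [h1]
  exact LPf.sub_mem (LPf.mul_mem (LPf.mul_mem (LPf_const _) (LPf.pow_mem LPf_inv _))
    (LPf.sub_mem (LPf_const _) (rho_mem _))) (LPf_const _)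

theorem eval_phi_mem {g : ℕ} (s : Fin g → ℂ) (p : MvPolynomial (Fin g) ℂ) : (fun w => eval (phi s w) p) ∈ LPf := by
  induction p using MvPolynomial.induction_on with
  | C a => simpa only [eval_C] using LPf_const a
  | add p q hp hq =>
    have h := LPf.add_mem hp hq
    have h2 : (fun w => eval (phi s w) (p + q)) = (fun w => eval (phi s w) p) + fun w => eval (phi s w) q := by
      funext w
      simp only [map_add, Pi.add_apply]
    rw [h2]
    exact h
  | mul_X p i hp =>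
    have h := LPf.mul_mem hp (phi_mem s i)
    have h2 : (fun w => eval (phi s w) (p * X i)) = (fun w => eval (phi s w) p) * fun w => phi s w i := by
      funext w
      simp only [map_mul, eval_X, Pi.mul_apply]
    rw [h2]
    exact h

/-- relations of the functions -/
def Rl (g : ℕ) : Set (MvPolynomial (Fin g) ℂ) := {p | ∀ z ∈ RH, eval (SV g z) p = 0}

theorem add_mem_RH {z : ℂ} (hz : z ∈ RH) (n : ℕ) : z + n * I ∈ RH := by
  change 0 < (z + n * I).re
  have : 0 < z.re := hz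
  simpa using this

theorem inj_shift (z : ℂ) : Function.Injective fun n : ℕ => z + n * I := by
  intro a b h
  have h1 : (a : ℂ) * I = b * I := by simpa using h
  have h2 := mul_right_cancel₀ I_ne_zero h1
  exact_mod_cast h2

theorem step1 {g : ℕ} {p : MvPolynomial (Fin g) ℂ} (hp : p ∈ Rl g) {z : ℂ} (hz : z ∈ RH) {w : ℂ} (hw : w ≠ 0) :
    eval (phi (SV g z) w) p = 0 := by
  refine LPf_zero (eval_phi_mem (SV g z) p) (Set.infinite_range_of_injective (inj_shift z)) ?_ hw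
  rintro _ ⟨n, rfl⟩
  have h1 := add_mem_RH hz n
  refine ⟨fun h => ?_, ?_⟩
  · simp only at h
    rw [h] at h1
    simp [RH] at h1
  · have h2 : SV g z = SV g (z + n * I) := by
      funext i
      exact (SS_period_nat _ z n).symm
    simp only
    rw [h2, ← SV_inv h1]
    exact hp _ (re_inv_pos h1)

/-- the Zariski closure of the curve -/
def VV (g : ℕ) : Set (Fin g → ℂ) := {s | ∀ p ∈ Rl g, eval s p = 0}

theorem step2 {g : ℕ} {s : Fin g → ℂ} (hs : s ∈ VV g) {w : ℂ} (hw : w ≠ 0) : phi s w ∈ VV g := by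
  intro p hp
  set f : Fin g → MvPolynomial (Fin g) ℂ := fun i =>
    C ((-1) ^ ((i : ℕ) + 1) * (1 / w) ^ (2 * ((i : ℕ) + 1))) *
      (X i + C (1 / 2 * ZZ (2 * ((i : ℕ) + 1) + 1) - rho ((i : ℕ) + 1) w)) - C (1 / 2 * ZZ (2 * ((i : ℕ) + 1) + 1)) with hf
  have h1 : ∀ t : Fin g → ℂ, eval t (bind₁ f p) = eval (phi t w) p := by
    intro t
    have h2 := eval₂Hom_bind₁ (RingHom.id ℂ) t f p
    have h3 : eval t (bind₁ f p) = eval₂Hom (RingHom.id ℂ) t (bind₁ f p) := rfl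
    rw [h3, h2]
    have h4 : (fun i => (eval₂Hom (RingHom.id ℂ) t) (f i)) = phi t w := by
      funext i
      change eval t (f i) = phi t w i
      simp only [hf, phi, map_sub, map_mul, map_add, eval_C, eval_X]
      ring
    rw [h4]
    rfl
  rw [← h1]
  refine hs _ fun z hz => ?_
  rw [h1]
  exact step1 hp hz hw

/-- the translation vector -/
noncomputable def uu {g : ℕ} (w : ℂ) (i : Fin g) : ℂ :=
  -rho ((i : ℕ) + 1) w - (-1) ^ ((i : ℕ) + 1) * w ^ (2 * ((i : ℕ) + 1)) * rho ((i : ℕ) + 1) (-1 / w)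

theorem phi_phi {g : ℕ} (s : Fin g → ℂ) {w : ℂ} (hw : w ≠ 0) : phi (phi s w) (-1 / w) = s + uu w := by
  funext i
  simp only [phi, uu, Pi.add_apply]
  set r := (i : ℕ) + 1
  have h1 : (1 / (-1 / w)) ^ (2 * r) = w ^ (2 * r) := by
    have : 1 / (-1 / w) = -w := by field_simp
    rw [this, Even.neg_pow ⟨r, by ring⟩]
  have h2 : ((-1 : ℂ) ^ r) * (-1) ^ r = 1 := by
    rw [← pow_add, Even.neg_one_pow ⟨r, rfl⟩]
  have h3 : w ^ (2 * r) * (1 / w) ^ (2 * r) = 1 := by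
    rw [← mul_pow, mul_one_div_cancel hw, one_pow]
  rw [h1]
  linear_combination (s i + 1 / 2 * ZZ (2 * r + 1) - rho r w) * h2 +
    (s i + 1 / 2 * ZZ (2 * r + 1) - rho r w) * ((-1) ^ r * (-1) ^ r) * h3

theorem step3 {g : ℕ} {s : Fin g → ℂ} (hs : s ∈ VV g) {w : ℂ} (hw : w ≠ 0) : s + uu w ∈ VV g := by
  rw [← phi_phi s hw]
  exact step2 (step2 hs hw) (div_ne_zero (neg_ne_zero.2 one_ne_zero) hw)

theorem step4 {g : ℕ} {s : Fin g → ℂ} (hs : s ∈ VV g) {w : ℂ} (hw : w ≠ 0) (n : ℕ) : s + (n : ℂ) • uu w ∈ VV g := by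
  induction n with
  | zero => simpa using hs
  | succ n ih =>
    have := step3 ih hw
    rw [show s + ((n + 1 : ℕ) : ℂ) • (uu w : Fin g → ℂ) = (s + (n : ℂ) • uu w) + uu w by
      push_cast
      rw [add_smul, one_smul, add_assoc]]
    exact this

theorem step5 {g : ℕ} {s : Fin g → ℂ} (hs : s ∈ VV g) {w : ℂ} (hw : w ≠ 0) (c : ℂ) : s + c • uu w ∈ VV g := by
  intro p hp
  set q : Polynomial ℂ := aeval (fun i => Polynomial.C (s i) + Polynomial.X * Polynomial.C (uu w i)) p with hq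
  have h1 : ∀ c : ℂ, q.eval c = eval (s + c • uu w) p := by
    intro c
    have h : (Polynomial.aeval c).comp (aeval (fun i => Polynomial.C (s i) + Polynomial.X * Polynomial.C (uu w i)) :
        MvPolynomial (Fin g) ℂ →ₐ[ℂ] Polynomial ℂ) = (aeval (s + c • uu w) : MvPolynomial (Fin g) ℂ →ₐ[ℂ] ℂ) := by
      apply MvPolynomial.algHom_ext
      intro i
      simp
      ring
    have h2 := DFunLike.congr_fun h p
    rw [AlgHom.comp_apply, ← hq] at h2
    rw [← Polynomial.coe_aeval_eq_eval]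
    exact h2
  have h2 : q = 0 := by
    refine Polynomial.eq_zero_of_infinite_isRoot q ((Set.infinite_range_of_injective
      (Nat.cast_injective (R := ℂ))).mono ?_)
    rintro _ ⟨n, rfl⟩
    change q.eval (n : ℂ) = 0
    rw [h1]
    exact step4 hs hw n p hp
  rw [← h1, h2, Polynomial.eval_zero]

/-- the directions of translations -/
def WW (g : ℕ) : Submodule ℂ (Fin g → ℂ) where
  carrier := {v | ∀ (c : ℂ) (s : Fin g → ℂ), s ∈ VV g → s + c • v ∈ VV g}
  add_mem' := by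
    intro a b ha hb c s hs
    rw [smul_add, ← add_assoc]
    exact hb c _ (ha c s hs)
  zero_mem' := by
    intro c s hs
    simpa using hs
  smul_mem' := by
    intro c v hv c' s hs
    rw [smul_smul]
    exact hv _ s hs

theorem uu_mem {g : ℕ} {w : ℂ} (hw : w ≠ 0) : uu w ∈ WW g := fun c _ hs => step5 hs hw c

/-- the polynomial `w * uu w` -/
noncomputable def UU (r : ℕ) : Polynomial ℂ :=
  Polynomial.C (ZZ (2 * r + 2) / π) * (Polynomial.C ((-1) ^ r) * Polynomial.X ^ (2 * r + 2) - 1) +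
    ∑ j ∈ Finset.range r, (Polynomial.C (-(1 / π) * (-1) ^ j * (ZZ (2 * (r - j)) * ZZ (2 * (j + 1)))) *
        Polynomial.X ^ (2 * j + 2) +
      Polynomial.C ((-1) ^ r * (1 / π) * (-1) ^ j * (ZZ (2 * (r - j)) * ZZ (2 * (j + 1)))) *
        Polynomial.X ^ (2 * (r - j)))

theorem UU_eval (r : ℕ) {w : ℂ} (hw : w ≠ 0) :
    (UU r).eval w = w * (-rho r w - (-1) ^ r * w ^ (2 * r) * rho r (-1 / w)) := by
  have hpi : (π : ℂ) ≠ 0 := by exact_mod_cast Real.pi_ne_zero
  have h2 : ((-1 : ℂ) ^ r) * (-1) ^ r = 1 := by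
    rw [← pow_add, Even.neg_one_pow ⟨r, rfl⟩]
  have hodd : ∀ n : ℕ, (-1 / w) ^ (2 * n + 1) = -(1 / w ^ (2 * n + 1)) := by
    intro n
    rw [div_pow, Odd.neg_one_pow ⟨n, rfl⟩]
    ring
  have hS : w * (w ^ (2 * r) * ∑ j ∈ Finset.range r, (-1) ^ j * (-1 / w) ^ (2 * j + 1) *
      (ZZ (2 * (r - j)) * ZZ (2 * (j + 1)))) =
      -∑ j ∈ Finset.range r, (-1) ^ j * (ZZ (2 * (r - j)) * ZZ (2 * (j + 1))) * w ^ (2 * (r - j)) := by
    rw [Finset.mul_sum, Finset.mul_sum, ← Finset.sum_neg_distrib]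
    refine Finset.sum_congr rfl fun j hj => ?_
    have hj' := Finset.mem_range.1 hj
    have h3 : w ^ (2 * r) * w = w ^ (2 * (r - j)) * w ^ (2 * j + 1) := by
      rw [← pow_succ, ← pow_add]
      congr 1
      omega
    rw [hodd]
    have h4 : w ^ (2 * j + 1) ≠ 0 := pow_ne_zero _ hw
    field_simp
    linear_combination (-(ZZ (2 * (r - j)) * ZZ (2 * (j + 1)))) * h3
  have hT : w * ∑ j ∈ Finset.range r, (-1) ^ j * w ^ (2 * j + 1) * (ZZ (2 * (r - j)) * ZZ (2 * (j + 1))) =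
      ∑ j ∈ Finset.range r, (-1) ^ j * (ZZ (2 * (r - j)) * ZZ (2 * (j + 1))) * w ^ (2 * j + 2) := by
    rw [Finset.mul_sum]
    refine Finset.sum_congr rfl fun j _ => ?_
    ring
  have hL : (UU r).eval w = ZZ (2 * r + 2) / π * ((-1) ^ r * w ^ (2 * r + 2) - 1) -
      1 / π * (∑ j ∈ Finset.range r, (-1) ^ j * (ZZ (2 * (r - j)) * ZZ (2 * (j + 1))) * w ^ (2 * j + 2)) +
      (-1) ^ r * (1 / π) * ∑ j ∈ Finset.range r, (-1) ^ j * (ZZ (2 * (r - j)) * ZZ (2 * (j + 1))) * w ^ (2 * (r - j)) := by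
    simp only [UU, Polynomial.eval_add, Polynomial.eval_mul, Polynomial.eval_C, Polynomial.eval_sub,
      Polynomial.eval_pow, Polynomial.eval_X, Polynomial.eval_one, Polynomial.eval_finsetSum, Finset.sum_add_distrib,
      Finset.mul_sum]
    rw [sub_eq_add_neg (ZZ (2 * r + 2) / π * ((-1) ^ r * w ^ (2 * r + 2) - 1)), ← Finset.sum_neg_distrib, add_assoc]
    congr 2
    · refine Finset.sum_congr rfl fun j _ => ?_
      ring
    · refine Finset.sum_congr rfl fun j _ => ?_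
      ring
  rw [hL]
  simp only [rho]
  rw [hodd r]
  have h5 : w ^ (2 * r + 1) ≠ 0 := pow_ne_zero _ hw
  have h6 : w ^ (2 * r + 2) = w ^ (2 * r) * w * w := by ring
  have he : w * (1 / w) = 1 := mul_one_div_cancel hw
  have hf : w ^ (2 * r) * w * (1 / w ^ (2 * r + 1)) = 1 := by
    rw [← pow_succ]
    exact mul_one_div_cancel h5
  have hg : 1 / (-1 / w) = -w := by field_simp
  have h8 : w ^ (2 * r + 1) = w ^ (2 * r) * w := pow_succ _ _
  rw [hg]
  generalize (∑ j ∈ Finset.range r, (-1) ^ j * (-1 / w) ^ (2 * j + 1) * (ZZ (2 * (r - j)) * ZZ (2 * (j + 1)))) = B at *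
  generalize (∑ j ∈ Finset.range r, (-1) ^ j * (ZZ (2 * (r - j)) * ZZ (2 * (j + 1))) * w ^ (2 * (r - j))) = S2 at *
  generalize (∑ j ∈ Finset.range r, (-1) ^ j * w ^ (2 * j + 1) * (ZZ (2 * (r - j)) * ZZ (2 * (j + 1)))) = A at *
  generalize (∑ j ∈ Finset.range r, (-1) ^ j * (ZZ (2 * (r - j)) * ZZ (2 * (j + 1))) * w ^ (2 * j + 2)) = S1 at *
  generalize (1 / w ^ (2 * r + 1) : ℂ) = f at *
  generalize (1 / w : ℂ) = e at *
  rw [h6, h8]
  linear_combination (1 / π) * hT + ((-1) ^ r * (1 / π)) * hS + (ZZ (2 * r + 2) / (2 * π)) * he +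
    (((-1) ^ r * (-1) ^ r) * (ZZ (2 * r + 2) / (2 * π))) * hf + (ZZ (2 * r + 2) / (2 * π)) * h2

theorem UU_coeff_top (r : ℕ) : (UU r).coeff (2 * r + 2) = (-1) ^ r * (ZZ (2 * r + 2) / π) := by
  simp only [UU, Polynomial.coeff_add, Polynomial.coeff_C_mul, Polynomial.coeff_sub, Polynomial.finsetSum_coeff,
    Polynomial.coeff_X_pow, Polynomial.coeff_one]
  rw [Finset.sum_eq_zero]
  · simp
    ring
  · intro j hj
    have hj' := Finset.mem_range.1 hj
    rw [if_neg (by omega), if_neg (by omega)]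
    ring

theorem UU_coeff_gt {r n : ℕ} (h : 2 * r + 2 < n) : (UU r).coeff n = 0 := by
  simp only [UU, Polynomial.coeff_add, Polynomial.coeff_C_mul, Polynomial.coeff_sub, Polynomial.finsetSum_coeff,
    Polynomial.coeff_X_pow, Polynomial.coeff_one]
  rw [Finset.sum_eq_zero]
  · rw [if_neg (by omega), if_neg (by omega)]
    simp
  · intro j hj
    have hj' := Finset.mem_range.1 hj
    rw [if_neg (by omega), if_neg (by omega)]
    ring

theorem ZZ_ne {k : ℕ} (hk : 2 ≤ k) : ZZ k ≠ 0 := by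
  have h1 : ZZ k = ((∑' n : ℕ, 1 / ((n : ℝ) + 1) ^ k : ℝ) : ℂ) := by
    rw [ZZ, Complex.ofReal_tsum]
    refine tsum_congr fun n => ?_
    push_cast
    rfl
  rw [h1]
  have h2 : 0 < ∑' n : ℕ, 1 / ((n : ℝ) + 1) ^ k :=
    (summable_inv hk).tsum_pos (fun n => by positivity) 0 (by norm_num)
  exact_mod_cast h2.ne'

theorem WW_top (g : ℕ) : WW g = ⊤ := by
  by_contra hne
  obtain ⟨f, hf0, hf⟩ := Submodule.exists_le_ker_of_lt_top (WW g) (lt_top_iff_ne_top.2 hne)
  -- the coefficients of the functional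
  set l : Fin g → ℂ := fun i => f (fun j => if i = j then 1 else 0) with hl
  have hfl : ∀ v, f v = ∑ i, v i * l i := by
    intro v
    rw [LinearMap.pi_apply_eq_sum_univ f v]
    rfl
  have hl0 : ∃ i, l i ≠ 0 := by
    by_contra h
    push Not at h
    apply hf0
    refine LinearMap.ext fun v => ?_
    rw [hfl, LinearMap.zero_apply]
    exact Finset.sum_eq_zero fun i _ => by rw [h i, mul_zero]
  have hS : (Finset.univ.filter fun i => l i ≠ 0).Nonempty := by
    obtain ⟨i, hi⟩ := hl0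
    exact ⟨i, by simpa using hi⟩
  set m := (Finset.univ.filter fun i => l i ≠ 0).max' hS with hm
  have hm1 : l m ≠ 0 := by
    have := Finset.max'_mem _ hS
    simpa using this
  have hm2 : ∀ i, m < i → l i = 0 := by
    intro i hi
    by_contra h
    have := Finset.le_max' (Finset.univ.filter fun i => l i ≠ 0) i (by simpa using h)
    exact absurd (lt_of_lt_of_le hi this) (lt_irrefl _)
  set Q : Polynomial ℂ := ∑ i, Polynomial.C (l i) * UU ((i : ℕ) + 1) with hQ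
  have hQe : ∀ w : ℂ, w ≠ 0 → Q.eval w = 0 := by
    intro w hw
    have h1 := hf (uu_mem hw)
    rw [LinearMap.mem_ker, hfl] at h1
    rw [hQ, Polynomial.eval_finsetSum]
    have h2 : ∑ i : Fin g, (Polynomial.C (l i) * UU ((i : ℕ) + 1)).eval w = w * ∑ i, uu w i * l i := by
      rw [Finset.mul_sum]
      refine Finset.sum_congr rfl fun i _ => ?_
      rw [Polynomial.eval_mul, Polynomial.eval_C, UU_eval _ hw, uu]
      ring
    rw [h2, h1, mul_zero]
  have hQ0 : Q = 0 := by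
    refine Polynomial.eq_zero_of_infinite_isRoot Q ((Set.infinite_range_of_injective
      (f := fun n : ℕ => ((n + 1 : ℕ) : ℂ)) ?_).mono ?_)
    · intro a b h
      have h' : ((a + 1 : ℕ) : ℂ) = ((b + 1 : ℕ) : ℂ) := h
      have : a + 1 = b + 1 := by exact_mod_cast h'
      omega
    · rintro _ ⟨n, rfl⟩
      have h' : ((n + 1 : ℕ) : ℂ) ≠ 0 := by exact_mod_cast Nat.succ_ne_zero n
      exact hQe _ h'
  have hc : Q.coeff (2 * ((m : ℕ) + 1) + 2) = l m * ((-1) ^ ((m : ℕ) + 1) * (ZZ (2 * ((m : ℕ) + 1) + 2) / π)) := by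
    rw [hQ, Polynomial.finsetSum_coeff, Finset.sum_eq_single m]
    · rw [Polynomial.coeff_C_mul, UU_coeff_top]
    · intro i _ hi
      rw [Polynomial.coeff_C_mul]
      rcases lt_or_gt_of_ne hi with h | h
      · rw [UU_coeff_gt (by have : (i : ℕ) < m := h; omega), mul_zero]
      · rw [hm2 i h, zero_mul]
    · intro h
      exact absurd (Finset.mem_univ m) h
  rw [hQ0, Polynomial.coeff_zero] at hc
  have hpi : (π : ℂ) ≠ 0 := by exact_mod_cast Real.pi_ne_zero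
  exact (mul_ne_zero hm1 (mul_ne_zero (pow_ne_zero _ (neg_ne_zero.2 one_ne_zero))
    (div_ne_zero (ZZ_ne (by omega)) hpi))) hc.symm

theorem one_mem_RH : (1 : ℂ) ∈ RH := by
  change 0 < (1 : ℂ).re
  simp

/-- the functions are algebraically independent over `ℂ` -/
theorem Rl_zero {g : ℕ} {p : MvPolynomial (Fin g) ℂ} (hp : p ∈ Rl g) : p = 0 := by
  refine MvPolynomial.funext fun s => ?_
  rw [map_zero]
  have h1 : SV g 1 ∈ VV g := fun q hq => hq 1 one_mem_RH
  have h2 : s - SV g 1 ∈ WW g := by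
    rw [WW_top]
    trivial
  have h3 := h2 1 _ h1
  rw [one_smul, add_sub_cancel] at h3
  exact h3 p hp

end Pool.Agent.Helper8.EI
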