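import Pool.Agent.Helper8.EI.Fun
import Pool.Graph.R_seed8.Y124.NFPoly

set_option autoImplicit false

/-!
# Local independence of periodic families over the rational functions
-/

open Complex Filter Topology Real MvPolynomial

namespace Pool.Agent.Helper8.EI

theorem eval_option {κ : Type} (P : MvPolynomial (Option κ) ℂ) (t : ℂ) (s : κ → ℂ) :
    eval (fun o : Option κ => o.elim t s) P = ((optionEquivLeft ℂ κ P).map (eval s)).eval t := by
  have h : (eval (fun o : Option κ => o.elim t s) : MvPolynomial (Option κ) ℂ →+* ℂ) =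
      (Polynomial.evalRingHom t).comp ((Polynomial.mapRingHom (eval s)).comp
        ((optionEquivLeft ℂ κ).toRingEquiv.toRingHom)) := by
    apply MvPolynomial.ringHom_ext
    · intro c
      simp [optionEquivLeft_C]
    · intro i
      rcases i with _ | i
      · simp [optionEquivLeft_X_none]
      · simp [optionEquivLeft_X_some]
  exact congrArg (fun g : MvPolynomial (Option κ) ℂ →+* ℂ => g P) h

theorem eval_an {κ : Type} (f : κ → ℂ → ℂ) (han : ∀ i, AnalyticOnNhd ℂ (f i) RH) (P : MvPolynomial (Option κ) ℂ) :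
    AnalyticOnNhd ℂ (fun z : ℂ => eval (fun o => o.elim z fun y => f y z) P) RH := by
  induction P using MvPolynomial.induction_on with
  | C a =>
    simp only [eval_C]
    exact analyticOnNhd_const
  | add p q hp hq =>
    simp only [map_add]
    exact hp.add hq
  | mul_X p i hp =>
    simp only [map_mul, eval_X]
    refine hp.mul ?_
    rcases i with _ | y
    · exact analyticOnNhd_id
    · exact han y

/-- periodic analytic functions which are algebraically independent over `ℂ` are so over `ℂ(z)`, locally -/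
theorem locInd_of_periodic {κ : Type} (f : κ → ℂ → ℂ) (han : ∀ i, AnalyticOnNhd ℂ (f i) RH) (m : ℕ) (hm : m ≠ 0)
    (hper : ∀ i z (n : ℕ), f i (z + ((m * n : ℕ) : ℂ) * I) = f i z)
    (hind : ∀ p : MvPolynomial κ ℂ, (∀ z ∈ RH, eval (fun i => f i z) p = 0) → p = 0) {t0 : ℂ} (ht0 : t0 ∈ RH) :
    Pool.Agent.Y124.LocInd (𝕜 := ℂ) f t0 := by
  intro P hP
  have h1 := (eval_an f han P).eqOn_zero_of_preconnected_of_eventuallyEq_zero preconn_RH ht0 hP
  set Q := optionEquivLeft ℂ κ P with hQ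
  have hQ0 : Q = 0 := by
    ext1 n
    rw [Polynomial.coeff_zero]
    refine hind _ fun z hz => ?_
    have h2 : Q.map (eval fun i => f i z) = 0 := by
      refine Polynomial.eq_zero_of_infinite_isRoot _ ((Set.infinite_range_of_injective
        (f := fun n : ℕ => z + ((m * n : ℕ) : ℂ) * I) ?_).mono ?_)
      · intro a b h
        have h3 : ((m * a : ℕ) : ℂ) * I = ((m * b : ℕ) : ℂ) * I := by simpa using h
        have h4 : m * a = m * b := by exact_mod_cast mul_right_cancel₀ I_ne_zero h3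
        exact Nat.eq_of_mul_eq_mul_left (Nat.pos_of_ne_zero hm) h4
      · rintro _ ⟨n, rfl⟩
        change Polynomial.eval _ _ = 0
        rw [hQ, ← eval_option]
        have h3 := h1 (add_mem_RH hz (m * n))
        simp only [Pi.zero_apply] at h3
        have h4 : (fun y => f y (z + ((m * n : ℕ) : ℂ) * I)) = fun i => f i z := by
          funext i
          exact hper i z n
        rw [h4] at h3
        exact h3
    have h3 := congrArg (fun q => Polynomial.coeff q n) h2
    simpa [Polynomial.coeff_map] using h3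
  exact (map_eq_zero_iff (optionEquivLeft ℂ κ) (optionEquivLeft ℂ κ).injective).1 hQ0

theorem locInd_SV (g : ℕ) {t0 : ℂ} (ht0 : t0 ∈ RH) :
    Pool.Agent.Y124.LocInd (𝕜 := ℂ) (fun (i : Fin g) (z : ℂ) => SV g z i) t0 := by
  refine locInd_of_periodic _ (fun i => SS_an (by omega)) 1 one_ne_zero (fun i z n => ?_) (fun p hp => ?_) ht0
  · rw [one_mul]
    exact SS_period_nat _ z n
  · exact Rl_zero hp

/-- the Lambert series of odd index with the powers of `π` removed -/
noncomputable def FF (z : ℂ) : ℂ := SS 3 (z / 2) - 21 / 8 * SS 3 z + 21 / 16 * SS 3 (2 * z) - 1 / 8 * SS 3 (4 * z)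

theorem ZZ_two : ZZ 2 = (π : ℂ) ^ 2 / 6 := by
  have h1 : ZZ 2 = ((∑' n : ℕ, 1 / ((n : ℝ) + 1) ^ 2 : ℝ) : ℂ) := by
    rw [ZZ, Complex.ofReal_tsum]
    refine tsum_congr fun n => ?_
    push_cast
    rfl
  have h2 : ∑' n : ℕ, 1 / ((n : ℝ) + 1) ^ 2 = π ^ 2 / 6 := by
    have h := hasSum_zeta_two
    have h3 := (hasSum_nat_add_iff' 1).2 h
    have h4 := h3.tsum_eq
    simp only [Finset.range_one, Finset.sum_singleton, Nat.cast_zero] at h4
    rw [show (π ^ 2 / 6 : ℝ) = π ^ 2 / 6 - 1 / 0 ^ 2 by simp, ← h4]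
    refine tsum_congr fun n => ?_
    push_cast
    rfl
  rw [h1, h2]
  push_cast
  rfl

theorem ZZ_four : ZZ 4 = (π : ℂ) ^ 4 / 90 := by
  have h1 : ZZ 4 = ((∑' n : ℕ, 1 / ((n : ℝ) + 1) ^ 4 : ℝ) : ℂ) := by
    rw [ZZ, Complex.ofReal_tsum]
    refine tsum_congr fun n => ?_
    push_cast
    rfl
  have h2 : ∑' n : ℕ, 1 / ((n : ℝ) + 1) ^ 4 = π ^ 4 / 90 := by
    have h := hasSum_zeta_four
    have h3 := (hasSum_nat_add_iff' 1).2 h
    have h4 := h3.tsum_eq
    simp only [Finset.range_one, Finset.sum_singleton, Nat.cast_zero] at h4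
    rw [show (π ^ 4 / 90 : ℝ) = π ^ 4 / 90 - 1 / 0 ^ 4 by simp, ← h4]
    refine tsum_congr fun n => ?_
    push_cast
    rfl
  rw [h1, h2]
  push_cast
  rfl

theorem ram3 {z : ℂ} (hz : 0 < z.re) :
    SS 3 z + z ^ 2 * SS 3 (1 / z) = -(1 / 2) * (1 + z ^ 2) * ZZ 3 + π ^ 3 / 180 * (1 / z + 5 * z + z ^ 3) := by
  have hpi : (π : ℂ) ≠ 0 := by exact_mod_cast Real.pi_ne_zero
  have hz0 : z ≠ 0 := by
    rintro rfl
    simp at hz
  have h := ram (r := 1) le_rfl hz
  simp only [Finset.range_one, Finset.sum_singleton] at h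
  norm_num at h
  rw [ZZ_two, ZZ_four] at h
  have h1 : (π : ℂ)⁻¹ * (z * (π ^ 2 / 6 * (π ^ 2 / 6))) = π ^ 3 / 36 * z := by
    field_simp
    ring
  have h2 : (π : ℂ) ^ 4 / 90 / (2 * π) = π ^ 3 / 180 := by
    field_simp
    ring
  rw [h1, h2] at h
  rw [one_div] at *
  linear_combination h

theorem FF_eq {z : ℂ} (hz : 0 < z.re) :
    FF z - 2 * z ^ 2 * FF (1 / (2 * z)) = 7 / 32 * (1 - 2 * z ^ 2) * ZZ 3 := by
  have hz0 : z ≠ 0 := by
    rintro rfl
    simp at hz
  have e1 := ram3 (z := z / 2) (by simpa using hz)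
  have e2 := ram3 hz
  have e3 := ram3 (z := 2 * z) (by simpa using hz)
  have e4 := ram3 (z := 4 * z) (by simpa using hz)
  have a1 : 1 / (z / 2) = 4 * (1 / (2 * z)) := by field_simp; norm_num
  have a2 : 1 / z = 2 * (1 / (2 * z)) := by field_simp
  have a4 : 1 / (4 * z) = 1 / (2 * z) / 2 := by field_simp; norm_num
  rw [a1] at e1
  rw [a2] at e2
  rw [a4] at e4
  have hc : z * (1 / (2 * z)) = 1 / 2 := by field_simp
  simp only [FF]
  generalize (1 / (2 * z) : ℂ) = c at *
  linear_combination e1 - 21 / 8 * e2 + 21 / 16 * e3 - 1 / 8 * e4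

end Pool.Agent.Helper8.EI
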