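import Pool.Agent.Helper8.EI.Loc

set_option autoImplicit false

/-!
# Transfer of near relations at almost all tuples of points
-/

open Complex Filter Topology Real NumberField

namespace Pool.Agent.Helper8.EI

open Pool.Agent.Y120 (HtLe)
open Pool.Agent.Y124 (sV sV_apply sV_inj exists_sV' eval_eq_box ExcNF excNF LocInd oneV_of)

/-- evaluation of a polynomial with integers of `K` as coefficients at complex numbers -/
noncomputable def evc {K : Type} [Field K] [NumberField K] {σ : Type} (io : K →+* ℂ) (u : σ → ℂ)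
    (P : MvPolynomial σ (𝓞 K)) : ℂ :=
  P.eval₂ (io.comp (algebraMap (𝓞 K) K)) u

/-- the transfer of near relations from the point `v` -/
def GoodAt {K : Type} [Field K] [NumberField K] {V h : Type} [Fintype V] (d B : ℕ) (H T : ℝ) (io : K →+* ℂ) (c : h → ℂ)
    (v : V → ℂ) : Prop :=
  ∀ P : MvPolynomial (V ⊕ h) (𝓞 K), (∀ i, P.degreeOf i ≤ d) → (∀ s (φ : K →+* ℂ), ‖φ ((P.coeff s : 𝓞 K) : K)‖ ≤ H) →
    ∀ w : V → ℂ, ‖evc io (Sum.elim w c) P‖ ≤ (T * max 1 ‖w‖) ^ B * ‖evc io (Sum.elim v c) P‖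

section

variable {K : Type} [Field K] [NumberField K] {V h : Type} [Fintype V] [DecidableEq V] [Fintype h] [DecidableEq h]

/-- the coefficient of the monomial with exponents `z` -/
noncomputable def cz (d : ℕ) (io : K →+* ℂ) (c : h → ℂ) (P : MvPolynomial (V ⊕ h) (𝓞 K)) (z : V → Fin (d + 1)) : ℂ :=
  ∑ e : h → Fin (d + 1), (∏ i, c i ^ (e i : ℕ)) * io ((P.coeff (sV (Sum.elim z e)) : 𝓞 K) : K)

/-- the polynomial with the constants inserted -/
noncomputable def PP (d : ℕ) (io : K →+* ℂ) (c : h → ℂ) (P : MvPolynomial (V ⊕ h) (𝓞 K)) : MvPolynomial V ℂ :=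
  ∑ z : V → Fin (d + 1), MvPolynomial.monomial (sV z) (cz d io c P z)

theorem PP_coeff (d : ℕ) (io : K →+* ℂ) (c : h → ℂ) (P : MvPolynomial (V ⊕ h) (𝓞 K)) (z : V → Fin (d + 1)) :
    (PP d io c P).coeff (sV z) = cz d io c P z := by
  rw [PP, MvPolynomial.coeff_sum, Finset.sum_eq_single z]
  · rw [MvPolynomial.coeff_monomial, if_pos rfl]
  · intro b _ hb
    rw [MvPolynomial.coeff_monomial, if_neg fun h => hb (sV_inj h)]
  · intro h
    exact absurd (Finset.mem_univ z) h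

theorem PP_coeff_of_not (d : ℕ) (io : K →+* ℂ) (c : h → ℂ) (P : MvPolynomial (V ⊕ h) (𝓞 K)) (s : V →₀ ℕ)
    (hs : ∀ z : V → Fin (d + 1), sV z ≠ s) : (PP d io c P).coeff s = 0 := by
  rw [PP, MvPolynomial.coeff_sum]
  exact Finset.sum_eq_zero fun z _ => by rw [MvPolynomial.coeff_monomial, if_neg (hs z)]

theorem PP_degreeOf (d : ℕ) (io : K →+* ℂ) (c : h → ℂ) (P : MvPolynomial (V ⊕ h) (𝓞 K)) (i : V) :
    (PP d io c P).degreeOf i ≤ d := by
  rw [MvPolynomial.degreeOf_le_iff]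
  intro s hs
  by_cases h : ∃ z : V → Fin (d + 1), sV z = s
  · obtain ⟨z, rfl⟩ := h
    rw [sV_apply]
    exact Nat.lt_succ_iff.1 (z i).2
  · push Not at h
    exact absurd (PP_coeff_of_not d io c P s h) (MvPolynomial.mem_support_iff.1 hs)

theorem evc_eq {d : ℕ} (io : K →+* ℂ) (c : h → ℂ) (P : MvPolynomial (V ⊕ h) (𝓞 K)) (hd : ∀ i, P.degreeOf i ≤ d)
    (w : V → ℂ) : evc io (Sum.elim w c) P = ∑ z : V → Fin (d + 1), cz d io c P z * ∏ i, w i ^ (z i : ℕ) := by
  have h1 : evc io (Sum.elim w c) P =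
      MvPolynomial.aeval (Sum.elim w c) (MvPolynomial.map (io.comp (algebraMap (𝓞 K) K)) P) := by
    rw [evc, MvPolynomial.aeval_def, MvPolynomial.eval₂_map]
    rfl
  have h2 : ∀ i, (MvPolynomial.map (io.comp (algebraMap (𝓞 K) K)) P).degreeOf i ≤ d := by
    intro i
    rw [MvPolynomial.degreeOf_le_iff]
    intro s hs
    exact (MvPolynomial.monomial_le_degreeOf i (MvPolynomial.support_map_subset _ _ hs)).trans (hd i)
  rw [h1, eval_eq_box _ _ h2, ← (Equiv.sumArrowEquivProdArrow V h (Fin (d + 1))).symm.sum_comp,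
    Fintype.sum_prod_type]
  refine Finset.sum_congr rfl fun z _ => ?_
  rw [cz, Finset.sum_mul]
  refine Finset.sum_congr rfl fun e _ => ?_
  have h3 : (Equiv.sumArrowEquivProdArrow V h (Fin (d + 1))).symm (z, e) = Sum.elim z e := rfl
  rw [h3, MvPolynomial.coeff_map, Fintype.prod_sum_type]
  simp only [Sum.elim_inl, Sum.elim_inr, RingHom.comp_apply]
  ring

theorem PP_aeval {d : ℕ} (io : K →+* ℂ) (c : h → ℂ) (P : MvPolynomial (V ⊕ h) (𝓞 K)) (hd : ∀ i, P.degreeOf i ≤ d)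
    (w : V → ℂ) : MvPolynomial.aeval w (PP d io c P) = evc io (Sum.elim w c) P := by
  rw [evc_eq io c P hd w, eval_eq_box w _ (PP_degreeOf d io c P)]
  exact Finset.sum_congr rfl fun z _ => by rw [PP_coeff]

end

/-- transfer at almost all tuples -/
theorem transfer {κ h : Type} [Fintype κ] [DecidableEq κ] [Fintype h] [DecidableEq h] (f : κ → ℂ → ℂ)
    (han : ∀ i, AnalyticOnNhd ℂ (f i) RH) (hind : ∀ t ∈ RH, LocInd f t) (m n d : ℕ) (L : Set ℂ)
    (hL : IsCompact L) (hL' : L ⊆ RH) (A ε : ℝ) (hε : 0 < ε) :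
    ∃ (B : ℕ) (C T₀ : ℝ), 0 ≤ C ∧ 2 ≤ T₀ ∧ ∀ (K : Type) [Field K] [NumberField K], Module.finrank ℚ K ≤ m →
      ∀ (io : K →+* ℂ) (c : h → ℂ) (T : ℝ), T₀ ≤ T →
      {x : Fin n → K | (∀ j, HtLe K T (x j) ∧ io (x j) ∈ L) ∧
        ¬ GoodAt d B (T ^ A) T io c (fun z : Fin n × κ => f z.2 (io (x z.1)))}.Finite ∧
      (({x : Fin n → K | (∀ j, HtLe K T (x j) ∧ io (x j) ∈ L) ∧
        ¬ GoodAt d B (T ^ A) T io c (fun z : Fin n × κ => f z.2 (io (x z.1)))}.ncard : ℕ) : ℝ) ≤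
        C * T ^ ε * (({x : K | HtLe K T x ∧ io x ∈ L}.ncard : ℝ)) ^ (n - 1) := by
  obtain ⟨B₁, C, T₁, hC, hT₁, H⟩ := excNF (h := h → Fin (d + 1)) m n d (fun t i => f i t) L
    (fun g => oneV_of g f L hL (fun i t ht => han i t (hL' ht)) fun t ht => hind t (hL' ht)) A ε hε
  set V := Fin n × κ with hV
  set N : ℝ := (((d + 1) ^ Fintype.card V : ℕ) : ℝ) with hN
  refine ⟨⌈B₁⌉₊ + 1 + d * Fintype.card V, C, max T₁ N, hC, le_max_of_le_left hT₁, fun K _ _ hK io c T hT => ?_⟩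
  have hTT₁ : T₁ ≤ T := (le_max_left _ _).trans hT
  have hTN : N ≤ T := (le_max_right _ _).trans hT
  have hT2 : 2 ≤ T := hT₁.trans hTT₁
  have hT0 : 0 < T := by linarith
  obtain ⟨H1, H2⟩ := H K hK io (fun e : h → Fin (d + 1) => ∏ i, c i ^ (e i : ℕ)) T hTT₁
  have hsub : {x : Fin n → K | (∀ j, HtLe K T (x j) ∧ io (x j) ∈ L) ∧
        ¬ GoodAt d (⌈B₁⌉₊ + 1 + d * Fintype.card V) (T ^ A) T io c (fun z : Fin n × κ => f z.2 (io (x z.1)))} ⊆
      ExcNF n d K io (fun e : h → Fin (d + 1) => ∏ i, c i ^ (e i : ℕ)) (fun t i => f i t) L A B₁ T := by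
    rintro x ⟨hx, hbad⟩
    rw [GoodAt] at hbad
    push Not at hbad
    obtain ⟨P, hPd, hPc, w, hw⟩ := hbad
    refine ⟨hx, PP d io c P, PP_degreeOf d io c P, fun s => ?_, ?_⟩
    · by_cases hs : ∃ z : V → Fin (d + 1), sV z = s
      · obtain ⟨z, rfl⟩ := hs
        refine ⟨fun e => P.coeff (sV (Sum.elim z e)), fun e φ => hPc _ φ, ?_⟩
        rw [PP_coeff]
        rfl
      · push Not at hs
        refine ⟨fun _ => 0, fun e φ => ?_, ?_⟩
        · simp only [map_zero, norm_zero]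
          positivity
        · rw [PP_coeff_of_not d io c P s hs]
          simp
    · obtain ⟨z₀, -, hz₀⟩ := Finset.exists_max_image (Finset.univ : Finset (V → Fin (d + 1)))
        (fun z => ‖cz d io c P z‖) ⟨fun _ => 0, Finset.mem_univ _⟩
      set M := max 1 ‖w‖ with hM
      have hM1 : 1 ≤ M := le_max_left _ _
      have hM0 : 0 < M := by linarith
      have hup : ‖evc io (Sum.elim w c) P‖ ≤ N * (‖cz d io c P z₀‖ * M ^ (d * Fintype.card V)) := by
        rw [evc_eq io c P hPd w]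
        refine (norm_sum_le _ _).trans ?_
        have h1 : ∀ z ∈ (Finset.univ : Finset (V → Fin (d + 1))), ‖cz d io c P z * ∏ i, w i ^ (z i : ℕ)‖ ≤
            ‖cz d io c P z₀‖ * M ^ (d * Fintype.card V) := by
          intro z hz
          rw [norm_mul]
          refine mul_le_mul (hz₀ z hz) ?_ (norm_nonneg _) (norm_nonneg _)
          rw [norm_prod, pow_mul, ← Finset.card_univ, ← Finset.prod_const]
          refine Finset.prod_le_prod (fun i _ => norm_nonneg _) fun i _ => ?_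
          rw [norm_pow]
          calc ‖w i‖ ^ (z i : ℕ) ≤ M ^ (z i : ℕ) :=
                pow_le_pow_left₀ (norm_nonneg _) ((norm_le_pi_norm w i).trans (le_max_right _ _)) _
            _ ≤ M ^ d := pow_le_pow_right₀ hM1 (Nat.lt_succ_iff.1 (z i).2)
        refine (Finset.sum_le_card_nsmul _ _ _ h1).trans (le_of_eq ?_)
        rw [nsmul_eq_mul, Finset.card_univ, Fintype.card_fun, Fintype.card_fin, hN]
      refine ⟨sV z₀, ?_, ?_⟩
      · rw [PP_coeff]
        intro h0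
        rw [h0, norm_zero, zero_mul, mul_zero] at hup
        have : 0 ≤ (T * M) ^ (⌈B₁⌉₊ + 1 + d * Fintype.card V) *
            ‖evc io (Sum.elim (fun z : Fin n × κ => f z.2 (io (x z.1))) c) P‖ := by positivity
        linarith
      · have h1 : MvPolynomial.aeval (fun x_1 : Fin n × κ => (fun t i => f i t) (io (x x_1.1)) x_1.2) (PP d io c P) =
            evc io (Sum.elim (fun z : Fin n × κ => f z.2 (io (x z.1))) c) P := PP_aeval io c P hPd _
        rw [h1, PP_coeff]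
        set y := ‖evc io (Sum.elim (fun z : Fin n × κ => f z.2 (io (x z.1))) c) P‖ with hy
        have hy0 : 0 ≤ y := norm_nonneg _
        have h2 : (T * M) ^ (⌈B₁⌉₊ + 1 + d * Fintype.card V) * y ≤
            T * (‖cz d io c P z₀‖ * M ^ (d * Fintype.card V)) :=
          hw.le.trans (hup.trans (mul_le_mul_of_nonneg_right hTN (by positivity)))
        have h3 : T ^ (⌈B₁⌉₊ : ℕ) * T * M ^ (d * Fintype.card V) ≤ (T * M) ^ (⌈B₁⌉₊ + 1 + d * Fintype.card V) := by
          rw [mul_pow]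
          have e1 : T ^ (⌈B₁⌉₊ : ℕ) * T ≤ T ^ (⌈B₁⌉₊ + 1 + d * Fintype.card V) := by
            rw [← pow_succ]
            exact pow_le_pow_right₀ (by linarith) (by omega)
          have e2 : M ^ (d * Fintype.card V) ≤ M ^ (⌈B₁⌉₊ + 1 + d * Fintype.card V) :=
            pow_le_pow_right₀ hM1 (by omega)
          exact mul_le_mul e1 e2 (by positivity) (by positivity)
        have h4 : T ^ (⌈B₁⌉₊ : ℕ) * T * M ^ (d * Fintype.card V) * y ≤
            T * (‖cz d io c P z₀‖ * M ^ (d * Fintype.card V)) := (mul_le_mul_of_nonneg_right h3 hy0).trans h2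
        have h5 : T ^ (⌈B₁⌉₊ : ℕ) * y ≤ ‖cz d io c P z₀‖ := by
          have hpos : 0 < T * M ^ (d * Fintype.card V) := by positivity
          refine le_of_mul_le_mul_left ?_ hpos
          calc T * M ^ (d * Fintype.card V) * (T ^ (⌈B₁⌉₊ : ℕ) * y)
              = T ^ (⌈B₁⌉₊ : ℕ) * T * M ^ (d * Fintype.card V) * y := by ring
            _ ≤ T * (‖cz d io c P z₀‖ * M ^ (d * Fintype.card V)) := h4
            _ = T * M ^ (d * Fintype.card V) * ‖cz d io c P z₀‖ := by ring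
        have h6 : T ^ B₁ ≤ T ^ (⌈B₁⌉₊ : ℕ) := by
          rw [← Real.rpow_natCast]
          exact Real.rpow_le_rpow_of_exponent_le (by linarith) (Nat.le_ceil B₁)
        have h7 : T ^ B₁ * y ≤ ‖cz d io c P z₀‖ := (mul_le_mul_of_nonneg_right h6 hy0).trans h5
        rw [Real.rpow_neg hT0.le, inv_mul_eq_div, le_div_iff₀ (Real.rpow_pos_of_pos hT0 _), mul_comm]
        exact h7
  exact ⟨H1.subset hsub, le_trans (by exact_mod_cast Set.ncard_le_ncard hsub H1) H2⟩

end Pool.Agent.Helper8.EI
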